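import Pool.Agent.X224.SG.Def

/-! Definable filters which decide a definable sequence of sets. -/

set_option autoImplicit false

namespace Pool.Agent.X224.SG

open Filter Set Encodable
open Pool.Agent.Y579.HM Pool.Agent.X224.HR
open Pool.Agent.Helper446.Oracle Pool.Agent.Helper446
open Pool.Agent.Y545.HM (Dec Gr Idl Jmp HTI)

@[fun_prop] theorem cpow2 {α : Type} [Primcodable α] {f : α → ℕ} (hf : Computable f) :
    Computable fun a => 2 ^ f a :=
  (pr_pow.comp ((Primrec.const 2).pair Primrec.id)).to_comp.comp hf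

@[fun_prop] theorem cdiv {α : Type} [Primcodable α] {f g : α → ℕ} (hf : Computable f)
    (hg : Computable g) : Computable fun a => f a / g a := Primrec.nat_div.to_comp.comp hf hg

theorem tb_iff (s i : ℕ) : s.testBit i = true ↔ s / 2 ^ i % 2 = 1 := by
  rw [Nat.testBit_eq_decide_div_mod_eq, decide_eq_true_iff]

section
variable (F : Filter ℕ) (R : ℕ × ℕ → Prop)

/-- `t` is in the cell of the first `n` sets given by the bits of `s` -/
def Cell (n s t : ℕ) : Prop := ∀ i < n, (R (i, t) ↔ s.testBit i = true)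

/-- the cell is frequent -/
def Fq (n s : ℕ) : Prop := ∃ᶠ t in F, Cell R n s t

/-- the bits of the frequent cells -/
noncomputable def pth : ℕ → ℕ
  | 0 => 0
  | n + 1 => by classical exact if Fq F R (n + 1) (2 ^ n + pth n) then 2 ^ n + pth n else pth n

/-- the definition of the path -/
def Pth (n s : ℕ) : Prop := s < 2 ^ n ∧
  ∀ i < n, (s.testBit i = true ↔ Fq F R (i + 1) (2 ^ i + s % 2 ^ i))

variable {F R}

theorem pth_lt (n : ℕ) : pth F R n < 2 ^ n := by
  induction n with
  | zero => simp [pth]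
  | succ n ih =>
    unfold pth
    split_ifs <;> rw [pow_succ] <;> omega

theorem pth_old {n i : ℕ} (h : i < n) :
    (pth F R (n + 1)).testBit i = (pth F R n).testBit i := by
  conv_lhs => unfold pth
  split_ifs
  · exact Nat.testBit_two_pow_add_gt h _
  · rfl

theorem pth_stable {n m i : ℕ} (h : i < n) (hnm : n ≤ m) :
    (pth F R m).testBit i = (pth F R n).testBit i := by
  induction hnm with
  | refl => rfl
  | step h' ih => rw [pth_old (lt_of_lt_of_le h h'), ih]

theorem pth_new (n : ℕ) : (pth F R (n + 1)).testBit n = true ↔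
    Fq F R (n + 1) (2 ^ n + pth F R n) := by
  conv_lhs => unfold pth
  split_ifs with h
  · rw [Nat.testBit_two_pow_add_eq, Nat.testBit_lt_two_pow (pth_lt n)]
    simpa using h
  · rw [Nat.testBit_lt_two_pow (pth_lt n)]
    simpa using h

theorem pth_mod {n i : ℕ} (h : i ≤ n) : pth F R n % 2 ^ i = pth F R i := by
  refine Nat.eq_of_testBit_eq fun j => ?_
  rw [Nat.testBit_mod_two_pow]
  by_cases hj : j < i
  · simp [hj, pth_stable hj h]
  · have h1 : (pth F R i).testBit j = false :=
      Nat.testBit_lt_two_pow (lt_of_lt_of_le (pth_lt i) (Nat.pow_le_pow_right (by norm_num)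
        (not_lt.1 hj)))
    simp [hj, h1]

theorem pth_iff {n s : ℕ} : Pth F R n s ↔ s = pth F R n := by
  constructor
  · rintro ⟨h1, h2⟩
    have h3 : ∀ i, i ≤ n → s % 2 ^ i = pth F R i := by
      intro i
      induction i with
      | zero => intro _; simp [pth, Nat.mod_one]
      | succ i ih =>
        intro hi
        have ih' := ih (by omega)
        refine Nat.eq_of_testBit_eq fun j => ?_
        rw [Nat.testBit_mod_two_pow]
        by_cases hj : j < i
        · have h4 : s.testBit j = (pth F R i).testBit j := by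
            rw [← ih', Nat.testBit_mod_two_pow]
            simp [hj]
          rw [pth_old hj, ← h4]
          simp [show j < i + 1 by omega]
        · by_cases hj2 : j = i
          · subst hj2
            have h4 := h2 j (by omega)
            rw [ih', ← pth_new] at h4
            have h5 : s.testBit j = (pth F R (j + 1)).testBit j := by
              cases h6 : s.testBit j <;> cases h7 : (pth F R (j + 1)).testBit j <;>
                simp [h6, h7] at h4 ⊢
            rw [h5]
            simp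
          · have h1 : (pth F R (i + 1)).testBit j = false :=
              Nat.testBit_lt_two_pow (lt_of_lt_of_le (pth_lt (i + 1))
                (Nat.pow_le_pow_right (by norm_num) (by omega)))
            simp [h1]
            omega
    rw [← h3 n le_rfl, Nat.mod_eq_of_lt h1]
  · rintro rfl
    refine ⟨pth_lt n, fun i hi => ?_⟩
    rw [pth_mod hi.le, ← pth_new, pth_stable (Nat.lt_succ_self i) hi]

theorem fq_pth [F.NeBot] (n : ℕ) : Fq F R n (pth F R n) := by
  induction n with
  | zero =>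
    refine (Eventually.of_forall fun t => ?_).frequently
    intro i hi
    exact absurd hi (Nat.not_lt_zero _)
  | succ n ih =>
    by_cases h : Fq F R (n + 1) (2 ^ n + pth F R n)
    · unfold pth
      rw [if_pos h]
      exact h
    · have h1 : ∀ᶠ t in F, ¬ Cell R (n + 1) (2 ^ n + pth F R n) t := not_frequently.1 h
      refine (ih.and_eventually h1).mono ?_
      rintro t ⟨h2, h3⟩
      unfold pth
      rw [if_neg h]
      intro i hi
      by_cases hin : i = n
      · subst hin
        have h4 : (pth F R i).testBit i = false := Nat.testBit_lt_two_pow (pth_lt i)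
        rw [h4]
        simp only [Bool.false_eq_true, iff_false]
        intro h5
        apply h3
        intro j hj
        by_cases hji : j = i
        · subst hji
          rw [Nat.testBit_two_pow_add_eq, h4]
          simpa using h5
        · rw [Nat.testBit_two_pow_add_gt (by omega)]
          exact h2 j (by omega)
      · exact h2 i (by omega)

theorem cell_anti {n m t : ℕ} (h : n ≤ m) (ht : Cell R m (pth F R m) t) :
    Cell R n (pth F R n) t := by
  intro i hi
  rw [← pth_stable (F := F) (R := R) hi h]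
  exact ht i (by omega)

variable (F R) in
/-- the filter generated by `F` and the frequent cells -/
def Coh : Filter ℕ where
  sets := {D | ∃ n, ∀ᶠ t in F, Cell R n (pth F R n) t → t ∈ D}
  univ_sets := ⟨0, Eventually.of_forall fun _ _ => trivial⟩
  sets_of_superset := by
    rintro D E ⟨n, hn⟩ h
    exact ⟨n, hn.mono fun t ht h1 => h (ht h1)⟩
  inter_sets := by
    rintro D E ⟨n, hn⟩ ⟨m, hm⟩
    refine ⟨max n m, ?_⟩
    filter_upwards [hn, hm] with t h1 h2 h3
    exact ⟨h1 (cell_anti (le_max_left _ _) h3), h2 (cell_anti (le_max_right _ _) h3)⟩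

theorem ev_coh {p : ℕ → Prop} : (∀ᶠ t in Coh F R, p t) ↔
    ∃ n, ∀ᶠ t in F, Cell R n (pth F R n) t → p t := Iff.rfl

theorem coh_le : Coh F R ≤ F := fun _ hD => ⟨0, mem_of_superset hD fun _ ht _ => ht⟩

instance coh_neBot [F.NeBot] : (Coh F R).NeBot := by
  refine ⟨fun h0 => ?_⟩
  have h1 : ∀ᶠ _t in Coh F R, False := by rw [h0]; exact mem_bot
  obtain ⟨n, hn⟩ := ev_coh.1 h1
  exact fq_pth n hn

theorem coh_dec (e : ℕ) : (∀ᶠ t in Coh F R, R (e, t)) ∨ ∀ᶠ t in Coh F R, ¬ R (e, t) := by
  cases h : (pth F R (e + 1)).testBit e with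
  | true =>
    refine Or.inl (ev_coh.2 ⟨e + 1, Eventually.of_forall fun t ht => ?_⟩)
    exact (ht e (Nat.lt_succ_self e)).2 h
  | false =>
    refine Or.inr (ev_coh.2 ⟨e + 1, Eventually.of_forall fun t ht h1 => ?_⟩)
    have h2 := (ht e (Nat.lt_succ_self e)).1 h1
    rw [h] at h2
    cases h2

end

theorem lev_cell {G : Set ℕ} {R : ℕ × ℕ → Prop} {γ : ℕ} (hR : Lev G γ R) :
    Lev G (γ + 1) fun x : (ℕ × ℕ) × ℕ => Cell R x.1.1 x.1.2 x.2 := by
  have h : Lev G γ fun x : ((ℕ × ℕ) × ℕ) × ℕ =>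
      x.2 < x.1.1.1 → (R (x.2, x.1.2) ↔ x.1.1.2 / 2 ^ x.2 % 2 = 1) :=
    Lev.imp (lev_lt (by fun_prop) (by fun_prop))
      (Lev.iff (hR.subst (g := fun x : ((ℕ × ℕ) × ℕ) × ℕ => (x.2, x.1.2)) (by fun_prop))
        (lev_eq (by fun_prop) (by fun_prop)))
  refine h.all.congr fun x => ?_
  unfold Cell
  simp only [tb_iff]

theorem Dfn.two {G : Set ℕ} {F : Filter ℕ} {α β : ℕ} (hD : Dfn G F α β) {A : Type}
    [Primcodable A] {n : ℕ} {p : A × ℕ → Prop} (hp : Lev G n p) :
    Lev G (α + max n β) fun x : A => ∀ᶠ z in F, p (x, z) := by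
  obtain ⟨q, hq, h⟩ := hp
  have h1 : Lev G n fun x : ℕ × ℕ => q (Nat.pair x.1 x.2) :=
    (lev_iff.2 hq).subst (g := fun x : ℕ × ℕ => Nat.pair x.1 x.2) (by fun_prop)
  refine ((hD n _ h1).subst (g := fun a : A => encode a) Computable.encode).congr fun a => ?_
  refine eventually_congr (Eventually.of_forall fun z => ?_)
  have h2 := h (a, z)
  simp only [encode_prod_val, encode_nat] at h2
  exact h2.symm

theorem lev_fq {G : Set ℕ} {F : Filter ℕ} {α β : ℕ} (hD : Dfn G F α β) {R : ℕ × ℕ → Prop} {γ : ℕ}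
    (hR : Lev G γ R) : Lev G (α + max (γ + 1) β) fun x : ℕ × ℕ => Fq F R x.1 x.2 := by
  have h := (hD.two (lev_cell hR).not).not
  exact h.congr fun x => Iff.rfl

theorem lev_pth {G : Set ℕ} {F : Filter ℕ} {α β : ℕ} (hD : Dfn G F α β) {R : ℕ × ℕ → Prop} {γ : ℕ}
    (hR : Lev G γ R) : Lev G (α + max (γ + 1) β + 1) fun x : ℕ × ℕ => Pth F R x.1 x.2 := by
  have h : Lev G (α + max (γ + 1) β) fun x : (ℕ × ℕ) × ℕ =>
      x.2 < x.1.1 → (x.1.2 / 2 ^ x.2 % 2 = 1 ↔ Fq F R (x.2 + 1) (2 ^ x.2 + x.1.2 % 2 ^ x.2)) :=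
    Lev.imp (lev_lt (by fun_prop) (by fun_prop))
      (Lev.iff (lev_eq (by fun_prop) (by fun_prop))
        ((lev_fq hD hR).subst (g := fun x : (ℕ × ℕ) × ℕ => (x.2 + 1, 2 ^ x.2 + x.1.2 % 2 ^ x.2))
          (by fun_prop)))
  refine (Lev.and (lev_lt (f := fun x : ℕ × ℕ => x.2) (g := fun x : ℕ × ℕ => 2 ^ x.1)
    (by fun_prop) (by fun_prop)) h.all).congr fun x => ?_
  unfold Pth
  simp only [tb_iff]

theorem dfn_coh {G : Set ℕ} {F : Filter ℕ} {α β : ℕ} (hD : Dfn G F α β) {R : ℕ × ℕ → Prop} {γ : ℕ}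
    (hR : Lev G γ R) : Dfn G (Coh F R) (α + 2) (max (γ + 1) β) := by
  intro n p hp
  have h1 : Lev G (α + max (max (γ + 1) n) β) fun x : ℕ × (ℕ × ℕ) =>
      ∀ᶠ t in F, Cell R x.2.1 x.2.2 t → p (x.1, t) := by
    have h0 : Lev G (max (γ + 1) n) fun x : (ℕ × (ℕ × ℕ)) × ℕ =>
        Cell R x.1.2.1 x.1.2.2 x.2 → p (x.1.1, x.2) :=
      Lev.imp (((lev_cell hR).subst (g := fun x : (ℕ × (ℕ × ℕ)) × ℕ => (x.1.2, x.2))
          (by fun_prop)).mono (le_max_left _ _))
        ((hp.subst (g := fun x : (ℕ × (ℕ × ℕ)) × ℕ => (x.1.1, x.2)) (by fun_prop)).mono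
          (le_max_right _ _))
    exact hD.two h0
  have h2 : Lev G (α + max (γ + 1) β + 1) fun x : ℕ × (ℕ × ℕ) => Pth F R x.2.1 x.2.2 :=
    (lev_pth hD hR).subst (g := fun x : ℕ × (ℕ × ℕ) => x.2) (by fun_prop)
  have h3 := (Lev.and (h2.mono (show _ ≤ (α + 1) + max n (max (γ + 1) β) by omega))
    (h1.mono (show _ ≤ (α + 1) + max n (max (γ + 1) β) by omega))).ex
  refine (h3.mono (by omega)).congr fun x => ?_
  rw [ev_coh]
  constructor
  · rintro ⟨⟨m, s⟩, h4, h5⟩
    have h6 : s = pth F R m := pth_iff.1 h4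
    subst h6
    exact ⟨m, h5⟩
  · rintro ⟨m, h4⟩
    exact ⟨(m, pth F R m), pth_iff.2 rfl, h4⟩

end Pool.Agent.X224.SG
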