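import Mathlib

/-! Semigroup filters and two-colourings without shattered pairs. -/

set_option autoImplicit false

namespace Pool.Agent.X224.SG

open Filter Set

/-- the sets which contain all sufficiently divisible positive numbers -/
def Far : Filter ℕ where
  sets := {D | ∃ m : ℕ, ∀ u, 0 < u → m.factorial ∣ u → u ∈ D}
  univ_sets := ⟨0, fun _ _ _ => trivial⟩
  sets_of_superset := by
    rintro D E ⟨m, hm⟩ h
    exact ⟨m, fun u h1 h2 => h (hm u h1 h2)⟩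
  inter_sets := by
    rintro D E ⟨m, hm⟩ ⟨n, hn⟩
    exact ⟨max m n, fun u h1 h2 =>
      ⟨hm u h1 ((Nat.factorial_dvd_factorial (le_max_left _ _)).trans h2),
        hn u h1 ((Nat.factorial_dvd_factorial (le_max_right _ _)).trans h2)⟩⟩

theorem ev_far {p : ℕ → Prop} :
    (∀ᶠ u in Far, p u) ↔ ∃ m : ℕ, ∀ u, 0 < u → m.factorial ∣ u → p u := Iff.rfl

instance : Far.NeBot := by
  refine ⟨fun h => ?_⟩
  have h1 : ∀ᶠ _u in Far, False := by rw [h]; exact mem_bot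
  obtain ⟨m, hm⟩ := ev_far.1 h1
  exact hm m.factorial m.factorial_pos dvd_rfl

/-- semigroup filters -/
def SG (F : Filter ℕ) : Prop := ∀ D ∈ F, ∀ᶠ y in F, ∀ᶠ z in F, y + z ∈ D

theorem sg_far : SG Far := by
  rintro D ⟨m, hm⟩
  exact ev_far.2 ⟨m, fun y h1 h2 => ev_far.2 ⟨m, fun z h3 h4 => hm _ (by omega) (dvd_add h2 h4)⟩⟩

/-- `x` sends the colour `i` to `j` -/
def T (F : Filter ℕ) (a : ℕ → Fin 2) (x : ℕ) (i j : Fin 2) : Prop :=
  ∀ᶠ u in F, a u = i → a (x + u) = j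

variable {F : Filter ℕ} {a : ℕ → Fin 2}

theorem SG.shift (hF : SG F) {p : ℕ → Prop} (h : ∀ᶠ u in F, p u) :
    ∀ᶠ y in F, ∀ᶠ z in F, p (y + z) := hF _ h

theorem comp (hF : SG F) {y : ℕ} {j l : Fin 2} (h : T F a y j l) :
    ∀ᶠ z in F, ∀ i, T F a z i j → T F a (y + z) i l := by
  have h1 := hF.shift h
  filter_upwards [h1] with z hz i hi
  unfold T at hi ⊢
  filter_upwards [hz, hi] with u hu hu'
  intro h2
  rw [add_assoc]
  exact hu (hu' h2)

theorem sg_inf (hF : SG F) {B : Set ℕ}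
    (h : ∀ᶠ y in F, y ∈ B → ∀ᶠ z in F, z ∈ B → y + z ∈ B) : SG (F ⊓ 𝓟 B) := by
  intro D hD
  rw [mem_inf_principal] at hD
  have h1 := hF.shift (p := fun x => x ∈ B → x ∈ D) hD
  refine eventually_inf_principal.2 ?_
  filter_upwards [h1, h] with y hy1 hy2 hyB
  refine eventually_inf_principal.2 ?_
  filter_upwards [hy1, hy2 hyB] with z hz1 hz2 hzB
  exact hz1 (hz2 hzB)

theorem neBot_inf {B : Set ℕ} (h : ∃ᶠ y in F, y ∈ B) : (F ⊓ 𝓟 B).NeBot := by
  refine ⟨fun h0 => h ?_⟩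
  have h1 : ∀ᶠ _u in F ⊓ 𝓟 B, False := by rw [h0]; exact mem_bot
  exact eventually_inf_principal.1 h1

/-- sums with the last summand of colour `i` -/
def Bd (F : Filter ℕ) (a : ℕ → Fin 2) (i : Fin 2) : Filter ℕ :=
  F.bind fun y => (F ⊓ 𝓟 {z | a z = i}).map fun z => y + z

theorem ev_bd {i : Fin 2} {p : ℕ → Prop} :
    (∀ᶠ w in Bd F a i, p w) ↔ ∀ᶠ y in F, ∀ᶠ z in F, a z = i → p (y + z) := by
  unfold Bd
  rw [eventually_bind]
  refine eventually_congr (Eventually.of_forall fun y => ?_)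
  rw [eventually_map, eventually_inf_principal]
  rfl

theorem sg_bd (hF : SG F) (i : Fin 2) : SG (Bd F a i) := by
  intro D hD
  have h1 : ∀ᶠ v in F, ∀ᶠ z' in F, a z' = i → v + z' ∈ D := ev_bd.1 hD
  have h2 := hF.shift (hF.shift h1)
  refine ev_bd.2 ?_
  filter_upwards [h2] with y hy
  filter_upwards [hy] with z hz _
  refine ev_bd.2 ?_
  filter_upwards [hz] with y' hy'
  filter_upwards [hy'] with z' hz' h3
  have := hz' h3
  rwa [add_assoc] at this

theorem bd_le (hF : SG F) (i : Fin 2) : Bd F a i ≤ F := by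
  intro D hD
  refine ev_bd.2 ?_
  filter_upwards [hF D hD] with y hy
  filter_upwards [hy] with z hz _
  exact hz

theorem neBot_bd [F.NeBot] {i : Fin 2} (h : ∃ᶠ z in F, a z = i) : (Bd F a i).NeBot := by
  refine ⟨fun h0 => ?_⟩
  have h1 : ∀ᶠ _u in Bd F a i, False := by rw [h0]; exact mem_bot
  obtain ⟨y, hy⟩ := (ev_bd.1 h1).exists
  exact h hy

theorem fin2_of_ne {i j x : Fin 2} (h : i ≠ j) (hx : x ≠ j) : x = i := by
  revert i j x
  decide

theorem fin2_swap : ∀ i j i' j' : Fin 2, i ≠ j → i' ≠ j' → ¬ (i' = i ∧ j' = j) →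
    i' = j ∧ j' = i := by
  decide

theorem ev_fin2 {p : Fin 2 → ℕ → Prop} (h : ∀ i, ∀ᶠ y in F, p i y) : ∀ᶠ y in F, ∀ i, p i y :=
  eventually_all.2 h

theorem step (hF : SG F) [F.NeBot] (hP : ∀ᶠ x in F, ∃ i j, T F a x i j) :
    ∃ F' : Filter ℕ, F'.NeBot ∧ SG F' ∧ F' ≤ F ∧ (∃ i, ∀ᶠ x in F', a x = i) ∧
      ((∃ i j, F' = F ⊓ 𝓟 {x | a x = i ∧ T F a x j j}) ∨ ∃ i, F' = Bd F a i) := by
  by_cases h1 : ∃ i, ∃ᶠ y in F, a y = i ∧ T F a y i i
  · obtain ⟨i, hi⟩ := h1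
    refine ⟨F ⊓ 𝓟 {x | a x = i ∧ T F a x i i}, neBot_inf hi, sg_inf hF ?_, inf_le_left,
      ⟨i, eventually_inf_principal.2 (Eventually.of_forall fun x hx => hx.1)⟩, Or.inl ⟨i, i, rfl⟩⟩
    refine Eventually.of_forall fun y hy => ?_
    filter_upwards [comp hF hy.2, hy.2] with z hz1 hz2 hz
    exact ⟨hz2 hz.1, hz1 i hz.2⟩
  push Not at h1
  have h1' : ∀ᶠ y in F, ∀ i, ¬ (a y = i ∧ T F a y i i) :=
    ev_fin2 fun i => (h1 i).mono fun y hy h => hy h.1 h.2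
  by_cases h2 : ∃ i j, i ≠ j ∧ ∃ᶠ y in F, a y = i ∧ T F a y j j
  · obtain ⟨i, j, hij, hi⟩ := h2
    refine ⟨F ⊓ 𝓟 {x | a x = i ∧ T F a x j j}, neBot_inf hi, sg_inf hF ?_, inf_le_left,
      ⟨i, eventually_inf_principal.2 (Eventually.of_forall fun x hx => hx.1)⟩, Or.inl ⟨i, j, rfl⟩⟩
    filter_upwards [hF.shift h1'] with y hy1 hy
    filter_upwards [comp hF hy.2, hy1] with z hz1 hz2 hz
    have h3 := hz1 j hz.2
    exact ⟨fin2_of_ne hij fun h4 => hz2 j ⟨h4, h3⟩, h3⟩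
  push Not at h2
  have h3 : ∀ᶠ y in F, ∀ j, ¬ T F a y j j := by
    have h4 : ∀ᶠ y in F, ∀ i, ∀ j, i ≠ j → ¬ (a y = i ∧ T F a y j j) := by
      refine ev_fin2 fun i => ev_fin2 fun j => ?_
      by_cases hij : i = j
      · exact Eventually.of_forall fun y h => absurd hij h
      · exact (h2 i j hij).mono fun y hy _ h => hy h.1 h.2
    filter_upwards [h1', h4] with y hy1 hy2 j hj
    by_cases h5 : a y = j
    · exact hy1 j ⟨h5, hj⟩
    · exact hy2 (a y) j h5 ⟨rfl, hj⟩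
  obtain ⟨i, j, hij, hfr⟩ : ∃ i j, i ≠ j ∧ ∃ᶠ y in F, T F a y i j := by
    by_contra hcon
    push Not at hcon
    have h4 : ∀ᶠ y in F, ∀ i, ∀ j, i ≠ j → ¬ T F a y i j := by
      refine ev_fin2 fun i => ev_fin2 fun j => ?_
      by_cases hij : i = j
      · exact Eventually.of_forall fun y h => absurd hij h
      · exact (hcon i j hij).mono fun y hy _ => hy
    obtain ⟨y, hy1, hy2, i, j, hy3⟩ := (h3.and (h4.and hP)).exists
    by_cases hij : i = j
    · subst hij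
      exact hy1 i hy3
    · exact hy2 i j hij hy3
  have h4 : ∀ᶠ z in F, T F a z i j := by
    by_contra hcon
    have hcon' : ∃ᶠ z in F, ¬ T F a z i j := not_eventually.1 hcon
    have h5 : ∃ᶠ z in F, T F a z j i := by
      refine (hcon'.and_eventually (h3.and hP)).mono ?_
      rintro z ⟨hz1, hz2, i', j', hz3⟩
      have hne : i' ≠ j' := fun h => by
        subst h
        exact hz2 i' hz3
      have h6 : i' = j ∧ j' = i := fin2_swap i j i' j' hij hne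
        fun h => hz1 (by rw [← h.1, ← h.2]; exact hz3)
      rw [← h6.1, ← h6.2]
      exact hz3
    obtain ⟨y, hy1, hy2⟩ := (hfr.and_eventually (hF.shift h3)).exists
    obtain ⟨z, hz1, hz2, hz3⟩ := (h5.and_eventually ((comp hF hy1).and hy2)).exists
    exact hz3 j (hz2 j hz1)
  refine ⟨Bd F a i, neBot_bd ?_, sg_bd hF i, bd_le hF i, ⟨j, ev_bd.2 h4⟩, Or.inr ⟨i, rfl⟩⟩
  intro hcon
  have h5 : ∀ᶠ z in F, a z = j := hcon.mono fun z hz => fin2_of_ne hij.symm hz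
  obtain ⟨y, hy1, hy2⟩ := ((hF.shift h5).and h3).exists
  refine hy2 j ?_
  unfold T
  filter_upwards [hy1] with u hu _
  exact hu

theorem T.mono {F' : Filter ℕ} (h : F' ≤ F) {x : ℕ} {i j : Fin 2} (hT : T F a x i j) :
    T F' a x i j := hT.filter_mono h

end Pool.Agent.X224.SG
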