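import Pool.Agent.X224.SG.Comb
import Pool.Agent.X224.HR.Rec

/-! Definability of the semigroup filters, and the greedy construction. -/

set_option autoImplicit false

namespace Pool.Agent.X224.SG

open Filter Set Encodable
open Pool.Agent.Y579.HM Pool.Agent.X224.HR
open Pool.Agent.Helper446.Oracle Pool.Agent.Helper446
open Pool.Agent.Y545.HM (Dec Gr Idl Jmp HTI)

/-- the quantifier `∀ᶠ` is definable -/
def Dfn (G : Set ℕ) (F : Filter ℕ) (a b : ℕ) : Prop :=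
  ∀ (n : ℕ) (p : ℕ × ℕ → Prop), Lev G n p →
    Lev G (a + max n b) fun x : ℕ => ∀ᶠ z in F, p (x, z)

theorem dfn_far (G : Set ℕ) : Dfn G Far 2 0 := by
  intro n p hp
  have h : Lev G n fun w : (ℕ × ℕ) × ℕ =>
      0 < w.2 → w.2 % w.1.2.factorial = 0 → p (w.1.1, w.2) :=
    Lev.imp (lev_lt (by fun_prop) (by fun_prop))
      (Lev.imp (lev_eq (by fun_prop) (by fun_prop)) (hp.subst (by fun_prop)))
  have h2 : Lev G (n + 1 + 1) fun x : ℕ => ∃ m : ℕ, ∀ u : ℕ,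
      0 < u → u % m.factorial = 0 → p (x, u) := (h.all).ex
  refine (h2.mono (by omega)).congr fun x => ?_
  rw [ev_far]
  simp only [Nat.dvd_iff_mod_eq_zero]

theorem Dfn.mono {G : Set ℕ} {F : Filter ℕ} {a b a' b' : ℕ} (h : Dfn G F a b) (ha : a ≤ a')
    (hb : b ≤ b') : Dfn G F a' b' := fun n p hp => (h n p hp).mono (by omega)

section
variable {G : Set ℕ} {F : Filter ℕ} {α β : ℕ} {a : ℕ → Fin 2}

theorem lev_T (h : Dfn G F α β) (ha : ∀ i, Lev G 0 fun x : ℕ => a x = i) (i j : Fin 2) :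
    Lev G (α + β) fun x : ℕ => T F a x i j := by
  have h1 : Lev G 0 fun w : ℕ × ℕ => a w.2 = i → a (w.1 + w.2) = j :=
    Lev.imp ((ha i).subst (by fun_prop)) ((ha j).subst (by fun_prop))
  exact (h 0 _ h1).mono (by omega)

theorem Dfn.inf (h : Dfn G F α β) (ha : ∀ i, Lev G 0 fun x : ℕ => a x = i) (i j : Fin 2) :
    Dfn G (F ⊓ 𝓟 {x | a x = i ∧ T F a x j j}) α (α + β) := by
  intro n p hp
  have hB : Lev G (α + β) fun x : ℕ => a x = i ∧ T F a x j j :=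
    Lev.and ((ha i).mono (Nat.zero_le _)) (lev_T h ha j j)
  have h1 : Lev G (max n (α + β)) fun w : ℕ × ℕ => (a w.2 = i ∧ T F a w.2 j j) → p (w.1, w.2) :=
    Lev.imp ((hB.subst (g := fun w : ℕ × ℕ => w.2) (by fun_prop)).mono (le_max_right _ _))
      (hp.mono (le_max_left _ _))
  refine ((h _ _ h1).mono (by omega)).congr fun x => ?_
  exact eventually_inf_principal.symm

theorem Dfn.bd (h : Dfn G F α β) (ha : ∀ i, Lev G 0 fun x : ℕ => a x = i) (i : Fin 2) :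
    Dfn G (Bd F a i) (2 * α) β := by
  intro n p hp
  have h0 : Lev G n fun w : ℕ × ℕ => a w.2 = i → p (w.1.unpair.1, w.1.unpair.2 + w.2) :=
    Lev.imp (((ha i).subst (g := fun w : ℕ × ℕ => w.2) (by fun_prop)).mono (Nat.zero_le _))
      (hp.subst (by fun_prop))
  have h1 : Lev G (α + max n β) fun w : ℕ × ℕ => ∀ᶠ z in F, a z = i → p (w.1, w.2 + z) := by
    refine ((h _ _ h0).subst (g := fun w : ℕ × ℕ => Nat.pair w.1 w.2) (by fun_prop)).congr
      fun w => ?_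
    simp only [Nat.unpair_pair]
  refine ((h _ _ h1).mono (by omega)).congr fun x => ?_
  exact (ev_bd (p := fun z => p (x, z))).symm

end

theorem iter (G : Set ℕ) (a : ℕ → ℕ → Fin 2) (ha : ∀ l i, Lev G 0 fun x : ℕ => a l x = i)
    (hP : ∀ l, ∀ᶠ x in Far, ∃ i j, T Far (a l) x i j) : ∀ r : ℕ,
    ∃ F : Filter ℕ, F.NeBot ∧ SG F ∧ F ≤ Far ∧ (∀ l < r, ∃ i, ∀ᶠ x in F, a l x = i) ∧
      Dfn G F (2 ^ (r + 1)) (2 ^ (r + 1)) := by
  intro r
  induction r with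
  | zero =>
    exact ⟨Far, inferInstance, sg_far, le_rfl, fun l hl => absurd hl (Nat.not_lt_zero _),
      (dfn_far G).mono (by norm_num) (by norm_num)⟩
  | succ r ih =>
    obtain ⟨F, h1, h2, h3, h4, h5⟩ := ih
    obtain ⟨F', k1, k2, k3, ⟨i, k4⟩, k5⟩ := step (a := a r) h2 ((hP r).filter_mono h3 |>.mono
      fun x ⟨i, j, hij⟩ => ⟨i, j, hij.mono h3⟩)
    refine ⟨F', k1, k2, k3.trans h3, ?_, ?_⟩
    · intro l hl
      rcases Nat.lt_succ_iff_lt_or_eq.1 hl with h6 | rfl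
      · obtain ⟨i', h7⟩ := h4 l h6
        exact ⟨i', h7.filter_mono k3⟩
      · exact ⟨i, k4⟩
    · have e : 2 ^ (r + 1 + 1) = 2 * 2 ^ (r + 1) := by ring
      rcases k5 with ⟨i', j', rfl⟩ | ⟨i', rfl⟩
      · exact (h5.inf (ha r) i' j').mono (by omega) (by omega)
      · exact (h5.bd (ha r) i').mono (by omega) (by omega)

/-- the greedy construction -/
theorem greedy {Z : Set ℕ} (h : ∀ (S : Finset ℕ) (N : ℕ), (∀ s ∈ S, s ∈ Z) →
    ∃ y, N < y ∧ y ∈ Z ∧ ∀ s ∈ S, s + y ∈ Z) :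
    ∃ X : Set ℕ, X.Infinite ∧ 0 ∉ X ∧
      (∀ E : Finset ℕ, (E : Set ℕ) ⊆ X → E.Nonempty → ∑ x ∈ E, x ∈ Z) ∧ Dec Z X := by
  classical
  obtain ⟨d, hd⟩ : ∃ d : ℕ → Fin 2, ∀ x, d x = 1 ↔ x ∈ Z :=
    ⟨fun x => if x ∈ Z then 1 else 0, fun x => by by_cases hx : x ∈ Z <;> simp [hx]⟩
  have hZ : REIn Z fun p : ℕ × Fin 2 => d p.1 = p.2 := by
    have h1 : REIn Z fun p : ℕ × Fin 2 => (p.1 ∈ Z ∧ p.2 = 1) ∨ (p.1 ∉ Z ∧ p.2 = 0) :=
      REIn.or (REIn.and (REIn.mem Computable.fst)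
          (REIn.of_re (RE.eq Computable.snd (Computable.const 1))))
        (REIn.and (REIn.not_mem Computable.fst)
          (REIn.of_re (RE.eq Computable.snd (Computable.const 0))))
    refine h1.of_eq fun p => ?_
    obtain ⟨x, i⟩ := p
    rw [← hd x]
    show (d x = 1 ∧ i = 1) ∨ (¬ d x = 1 ∧ i = 0) ↔ d x = i
    generalize d x = e
    revert e i
    decide
  obtain ⟨X, hX, hX1, hX2⟩ := Pool.Agent.Y579.ST.t_GREEDY 2 d d 1 Z hZ hZ (by
    intro S N hS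
    obtain ⟨y, hy1, hy2, hy3⟩ := h S N fun s hs => (hd s).1 (hS s hs).1
    exact ⟨y, hy1, (hd y).2 hy2, (hd y).2 hy2, fun s hs =>
      ⟨(hd _).2 (hy3 s hs), (hd _).2 (hy3 s hs)⟩⟩)
  exact ⟨X, hX.1, hX.2.1, fun E hE hne => (hd _).1 (hX.2.2 E hE hne), hX1, hX2⟩

variable {k : ℕ} {c : ℕ → Fin k}

theorem final {F : Filter ℕ} [F.NeBot] (hF : SG F) (hle : F ≤ Far) {i : Fin k}
    (hi : ∀ᶠ x in F, c x = i) {α β : ℕ} (hD : Dfn (graph c) F α β) :
    ∃ Z X : Set ℕ, LevN (graph c) (α + β) (· ∈ Z) ∧ Pool.Agent.Y545.HM.St.Solution c X ∧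
      Dec Z X := by
  have hgt : ∀ N : ℕ, ∀ᶠ y in F, N < y := fun N => Eventually.filter_mono hle
    (ev_far.2 ⟨N + 1, fun u h1 h2 => by
      have h3 := Nat.le_of_dvd h1 h2
      have h4 := Nat.self_le_factorial (N + 1)
      omega⟩)
  obtain ⟨X, h1, h2, h3, h4⟩ := greedy (Z := {x | c x = i ∧ ∀ᶠ z in F, c (x + z) = i}) (by
    intro S N hS
    have k1 : ∀ᶠ y in F, ∀ s ∈ S, c (s + y) = i ∧ ∀ᶠ z in F, c (s + y + z) = i := by
      refine (Filter.eventually_all_finset S).2 fun s hs => ?_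
      filter_upwards [(hS s hs).2, hF.shift (hS s hs).2] with y hy1 hy2
      refine ⟨hy1, ?_⟩
      filter_upwards [hy2] with z hz
      rwa [← add_assoc] at hz
    obtain ⟨y, ⟨hy1, hy2⟩, hy3, hy4⟩ := (((hgt N).and hi).and ((hF.shift hi).and k1)).exists
    exact ⟨y, hy1, ⟨hy2, hy3⟩, hy4⟩)
  refine ⟨_, X, ?_, ⟨h1, h2, i, fun E hE hne => (h3 E hE hne).1⟩, h4⟩
  refine lev_iff.1 (Lev.and ((lev_col c Computable.id (Computable.const i)).mono (Nat.zero_le _))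
    ?_)
  have h5 : Lev (graph c) 0 fun w : ℕ × ℕ => c (w.1 + w.2) = i :=
    lev_col c (by fun_prop) (Computable.const i)
  exact (hD 0 _ h5).mono (by omega)

end Pool.Agent.X224.SG
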