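import Pool.Agent.X224.SG.VcMain

/-! Colourings without shattered translates relative to a recurrent limit of finite rank. -/

set_option autoImplicit false

namespace Pool.Agent.X224.SG

open Filter Set Encodable
open Pool.Agent.Y579.HM Pool.Agent.X224.HR
open Pool.Agent.Helper446.Oracle Pool.Agent.Helper446
open Pool.Agent.Y545.HM (Dec Gr Idl Jmp HTI)

variable {k k' : ℕ}

/-- good return numbers -/
def Gd (c g : ℕ → Fin k') (m u : ℕ) : Prop :=
  0 < u ∧ m.factorial ∣ u ∧ ∀ x < m, c (x + u) = g x ∧ g (x + u) = g x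

theorem Gd.anti {c g : ℕ → Fin k'} {m n u : ℕ} (h : Gd c g n u) (hmn : m ≤ n) : Gd c g m u :=
  ⟨h.1, (Nat.factorial_dvd_factorial hmn).trans h.2.1, fun x hx => h.2.2 x (by omega)⟩

/-- the filter of return times -/
def RF (c g : ℕ → Fin k') : Filter ℕ where
  sets := {D | ∃ m : ℕ, ∀ u, Gd c g m u → u ∈ D}
  univ_sets := ⟨0, fun _ _ => trivial⟩
  sets_of_superset := by
    rintro D E ⟨m, hm⟩ h
    exact ⟨m, fun u h1 => h (hm u h1)⟩
  inter_sets := by
    rintro D E ⟨m, hm⟩ ⟨n, hn⟩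
    exact ⟨max m n, fun u h1 => ⟨hm u (h1.anti (le_max_left _ _)), hn u (h1.anti (le_max_right _ _))⟩⟩

theorem ev_rf {c g : ℕ → Fin k'} {p : ℕ → Prop} :
    (∀ᶠ u in RF c g, p u) ↔ ∃ m : ℕ, ∀ u, Gd c g m u → p u := Iff.rfl

theorem rf_neBot {c g : ℕ → Fin k'} (h : Rcr c g) : (RF c g).NeBot := by
  refine ⟨fun h0 => ?_⟩
  have h1 : ∀ᶠ _u in RF c g, False := by rw [h0]; exact mem_bot
  obtain ⟨m, hm⟩ := ev_rf.1 h1
  obtain ⟨y, hy⟩ := h m
  exact hm y hy

theorem rf_le {c g : ℕ → Fin k'} : RF c g ≤ Far := by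
  rintro D ⟨m, hm⟩
  exact ev_rf.2 ⟨m, fun u h => hm u h.1 h.2.1⟩

theorem sg_rf {c g : ℕ → Fin k'} : SG (RF c g) := by
  rintro D ⟨m, hm⟩
  refine ev_rf.2 ⟨m, fun y hy => ev_rf.2 ⟨m + y, fun z hz => hm _ ⟨by have := hy.1; omega, ?_, ?_⟩⟩⟩
  · exact dvd_add hy.2.1 ((Nat.factorial_dvd_factorial (Nat.le_add_right _ _)).trans hz.2.1)
  · intro x hx
    have h1 := hz.2.2 (x + y) (by omega)
    have h2 := (hy.2.2 x hx).2
    rw [add_assoc] at h1
    rw [h1.1, h1.2, h2]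
    exact ⟨rfl, rfl⟩

theorem rf_dec {c g : ℕ → Fin k'} : ∀ᶠ u in RF c g, c u = g 0 :=
  ev_rf.2 ⟨1, fun u h => by
    have h1 := (h.2.2 0 (by norm_num)).1
    rwa [zero_add] at h1⟩

theorem dfn_rf {G : Set ℕ} {γ : ℕ} {c g : ℕ → Fin k'}
    (hc : Lev G γ fun p : ℕ × Fin k' => c p.1 = p.2)
    (hg : Lev G γ fun p : ℕ × Fin k' => g p.1 = p.2) : Dfn G (RF c g) 2 (γ + 1) := by
  have h1 : Lev G γ fun x : (ℕ × ℕ) × (ℕ × Fin k') => x.2.1 < x.1.1 → g x.2.1 = x.2.2 →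
      c (x.2.1 + x.1.2) = x.2.2 ∧ g (x.2.1 + x.1.2) = x.2.2 :=
    Lev.imp (lev_lt (by fun_prop) (by fun_prop))
      (Lev.imp (hg.subst (g := fun x : (ℕ × ℕ) × (ℕ × Fin k') => (x.2.1, x.2.2)) (by fun_prop))
        (Lev.and
          (hc.subst (g := fun x : (ℕ × ℕ) × (ℕ × Fin k') => (x.2.1 + x.1.2, x.2.2)) (by fun_prop))
          (hg.subst (g := fun x : (ℕ × ℕ) × (ℕ × Fin k') => (x.2.1 + x.1.2, x.2.2))
            (by fun_prop))))
  have h2 : Lev G (γ + 1) fun x : ℕ × ℕ => Gd c g x.1 x.2 := by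
    refine (Lev.and (lev_lt (f := fun _ : ℕ × ℕ => 0) (g := fun x : ℕ × ℕ => x.2) (by fun_prop)
      (by fun_prop)) (Lev.and (lev_eq (f := fun x : ℕ × ℕ => x.2 % x.1.factorial)
        (g := fun _ : ℕ × ℕ => 0) (by fun_prop) (by fun_prop)) h1.all)).congr fun x => ?_
    unfold Gd
    refine and_congr Iff.rfl (and_congr (Nat.dvd_iff_mod_eq_zero).symm ?_)
    constructor
    · intro h3 y hy
      exact h3 (y, g y) hy rfl
    · rintro h3 ⟨y, i⟩ hy hi
      simp only at hy hi ⊢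
      rw [← hi]
      exact h3 y hy
  intro n p hp
  have h3 : Lev G (max n (γ + 1)) fun w : (ℕ × ℕ) × ℕ => Gd c g w.1.2 w.2 → p (w.1.1, w.2) :=
    Lev.imp ((h2.subst (g := fun w : (ℕ × ℕ) × ℕ => (w.1.2, w.2)) (by fun_prop)).mono
      (le_max_right _ _))
      ((hp.subst (g := fun w : (ℕ × ℕ) × ℕ => (w.1.1, w.2)) (by fun_prop)).mono (le_max_left _ _))
  refine ((h3.all).ex.mono (by omega)).congr fun x => ?_
  exact (ev_rf (c := c) (g := g) (p := fun z => p (x, z))).symm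

/-- for most sums `y` of `m` numbers: some pattern of `y + u` and `x + y + u` does not occur -/
def HH (F : Filter ℕ) (a : ℕ → Fin 2) : ℕ → ℕ → ℕ → Prop
  | 0, x, z => ∃ i j, ∀ᶠ u in F, a (z + u) = i → a (x + (z + u)) = j
  | m + 1, x, z => ∀ᶠ y in F, HH F a m x (z + y)

theorem HH.mono {F F' : Filter ℕ} (hle : F' ≤ F) {a : ℕ → Fin 2} {m x z : ℕ}
    (h : HH F a m x z) : HH F' a m x z := by
  induction m generalizing z with
  | zero =>
    obtain ⟨i, j, h1⟩ := h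
    exact ⟨i, j, h1.filter_mono hle⟩
  | succ m ih =>
    have h1 : ∀ᶠ y in F, HH F a m x (z + y) := h
    exact (h1.filter_mono hle).mono fun y hy => ih hy

/-- the implications as one sequence of sets -/
def RM (F : Filter ℕ) (a : ℕ → Fin 2) (e : ℕ × ℕ) : Prop :=
  RR F (fun n => a (e.1.unpair.2 + n)) (e.1.unpair.1, e.2)

section
variable {G : Set ℕ} {F : Filter ℕ} {α β : ℕ} {a : ℕ → Fin 2}

theorem lev_RM (h : Dfn G F α β) (ha : ∀ i, Lev G 0 fun x : ℕ => a x = i) :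
    Lev G (α + β) (RM F a) := by
  have key0 : ∀ (i j : Fin 2), Lev G (α + β) fun x : (ℕ × ℕ) × ℕ =>
      T2 F (fun n => a (x.2 + n)) x.1.1 x.1.2 i j := by
    intro i j
    have h1 : Lev G 0 fun w : ((ℕ × ℕ) × ℕ) × ℕ => a (w.1.2 + (w.1.1.2 + w.2)) = i →
        a (w.1.2 + (w.1.1.1 + (w.1.1.2 + w.2))) = j :=
      Lev.imp ((ha i).subst (g := fun w : ((ℕ × ℕ) × ℕ) × ℕ => w.1.2 + (w.1.1.2 + w.2))
        (by fun_prop))
        ((ha j).subst (g := fun w : ((ℕ × ℕ) × ℕ) × ℕ => w.1.2 + (w.1.1.1 + (w.1.1.2 + w.2)))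
          (by fun_prop))
    exact (h.two h1).mono (by omega)
  have key : ∀ (m : ℕ) (i j : Fin 2), Lev G (α + β) fun e : ℕ × ℕ =>
      e.1.unpair.1 % 4 = m → T2 F (fun n => a (e.1.unpair.2 + n)) (e.1.unpair.1 / 4) e.2 i j :=
    fun m i j => Lev.imp (lev_eq (by fun_prop) (by fun_prop))
      ((key0 i j).subst (g := fun e : ℕ × ℕ => ((e.1.unpair.1 / 4, e.2), e.1.unpair.2))
        (by fun_prop))
  exact Lev.and (key 0 0 0) (Lev.and (key 1 0 1) (Lev.and (key 2 1 0) (key 3 1 1)))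

theorem block (hF : SG F) [F.NeBot] (hD : Dfn G F α β) (ha : ∀ i, Lev G 0 fun x : ℕ => a x = i) :
    ∃ F' : Filter ℕ, F'.NeBot ∧ SG F' ∧ F' ≤ F ∧ Dfn G F' (2 * α + 2) (α + β + 1) ∧
      ∀ m x z, HH F a (m + 1) x z → HH F' a m x z := by
  obtain ⟨V, hV⟩ : ∃ V, V = Coh F (RM F a) := ⟨_, rfl⟩
  have : V.NeBot := hV ▸ coh_neBot
  have hVF : V ≤ F := hV ▸ coh_le
  have hVD : Dfn G V (α + 2) (max (α + β + 1) β) := hV ▸ dfn_coh hD (lev_RM hD ha)
  have hdec : ∀ x z i j, (∀ᶠ y in V, T2 F (fun n => a (z + n)) x y i j) ∨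
      ∀ᶠ y in V, ¬ T2 F (fun n => a (z + n)) x y i j := by
    intro x z i j
    obtain ⟨e, he⟩ := rr_iff (F := F) (a := fun n => a (z + n)) x i j
    have h1 := coh_dec (F := F) (R := RM F a) (Nat.pair e z)
    rw [← hV] at h1
    unfold RM at h1
    simp only [Nat.unpair_pair] at h1
    simpa only [he] using h1
  have hMF : Mul V F ≤ F := mul_le hF hVF
  refine ⟨Mul V F, neBot_mul, sg_mul hF hVF, hMF, (dfn_mul hVD hD).mono (by omega) (by omega), ?_⟩
  intro m x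
  induction m with
  | zero =>
    intro z h
    have h0 : ∀ᶠ y in F, ∃ i j, ∀ᶠ u in F, a (z + y + u) = i → a (x + (z + y + u)) = j := h
    have h1 : ∃ i j, ∀ᶠ y in V, T2 F (fun n => a (z + n)) x y i j := by
      by_contra hcon
      push Not at hcon
      have h2 : ∀ᶠ y in V, ∀ i j, ¬ T2 F (fun n => a (z + n)) x y i j := by
        refine eventually_all.2 fun i => eventually_all.2 fun j => ?_
        rcases hdec x z i j with h3 | h3
        · exact absurd h3 (not_eventually.2 (hcon i j))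
        · exact h3
      obtain ⟨y, ⟨i, j, hy1⟩, hy2⟩ := ((h0.filter_mono hVF).and h2).exists
      refine hy2 i j ?_
      unfold T2
      filter_upwards [hy1] with u hu h3
      have e1 : z + y + u = z + (y + u) := by ring
      have e2 : x + (z + (y + u)) = z + (x + (y + u)) := by ring
      rw [e1, e2] at hu
      exact hu h3
    obtain ⟨i, j, h2⟩ := h1
    refine ⟨i, j, ev_mul.2 ?_⟩
    filter_upwards [h2] with y hy
    unfold T2 at hy
    filter_upwards [hy] with u hu h3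
    have e2 : x + (z + (y + u)) = z + (x + (y + u)) := by ring
    rw [e2]
    exact hu h3
  | succ m ih =>
    intro z h
    have h0 : ∀ᶠ y in F, HH F a (m + 1) x (z + y) := h
    have h1 : ∀ᶠ y in Mul V F, HH (Mul V F) a m x (z + y) :=
      (h0.filter_mono hMF).mono fun y hy => ih _ hy
    exact h1

theorem stepm (m : ℕ) : ∀ {F : Filter ℕ} {b e : ℕ}, SG F → F.NeBot →
    Dfn G F (2 ^ e - 2) (b + (2 ^ e - 2)) → 1 ≤ e → (∀ i, Lev G 0 fun x : ℕ => a x = i) →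
    (∀ᶠ x in F, HH F a m x 0) →
    ∃ F' : Filter ℕ, F'.NeBot ∧ SG F' ∧ F' ≤ F ∧ (∃ i, ∀ᶠ x in F', a x = i) ∧
      Dfn G F' (2 ^ (e + (m + 1)) - 2) (b + (2 ^ (e + (m + 1)) - 2)) := by
  induction m with
  | zero =>
    intro F b e hF hN hD he ha hP
    obtain ⟨F', k1, k2, k3, k4, k5⟩ := step (a := a) hF (hP.mono fun x ⟨i, j, h⟩ => ⟨i, j, by
      simp only [zero_add] at h
      exact h⟩)
    refine ⟨F', k1, k2, k3, k4, ?_⟩
    have e1 : 2 ^ (e + (0 + 1)) = 2 * 2 ^ e := by ring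
    have e2 : 2 ≤ 2 ^ e := by
      calc 2 = 2 ^ 1 := by norm_num
        _ ≤ 2 ^ e := Nat.pow_le_pow_right (by norm_num) he
    rcases k5 with ⟨i', j', rfl⟩ | ⟨i', rfl⟩
    · exact (hD.inf ha i' j').mono (by omega) (by omega)
    · exact (hD.bd ha i').mono (by omega) (by omega)
  | succ m ih =>
    intro F b e hF hN hD he ha hP
    obtain ⟨F₁, k1, k2, k3, k4, k5⟩ := block hF hD ha
    have e1 : 2 ^ (e + 1) = 2 * 2 ^ e := by ring
    have e2 : 2 ≤ 2 ^ e := by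
      calc 2 = 2 ^ 1 := by norm_num
        _ ≤ 2 ^ e := Nat.pow_le_pow_right (by norm_num) he
    obtain ⟨F', l1, l2, l3, l4, l5⟩ := ih (F := F₁) (b := b) (e := e + 1) k2 k1
      (k4.mono (by omega) (by omega)) (by omega) ha
      ((hP.filter_mono k3).mono fun x hx => k5 m x 0 hx)
    refine ⟨F', l1, l2, l3.trans k3, l4, ?_⟩
    have e3 : e + 1 + (m + 1) = e + (m + 1 + 1) := by ring
    rw [e3] at l5
    exact l5

end

theorem iter3 (G : Set ℕ) {F₀ : Filter ℕ} [F₀.NeBot] (hF : SG F₀) {b : ℕ} (hD : Dfn G F₀ 2 b)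
    (m : ℕ) (a : ℕ → ℕ → Fin 2) (ha : ∀ l i, Lev G 0 fun x : ℕ => a l x = i)
    (hP : ∀ l, ∀ᶠ x in F₀, HH F₀ (a l) m x 0) : ∀ r : ℕ,
    ∃ F : Filter ℕ, F.NeBot ∧ SG F ∧ F ≤ F₀ ∧ (∀ l < r, ∃ i, ∀ᶠ x in F, a l x = i) ∧
      Dfn G F (2 ^ (2 + (m + 1) * r) - 2) (b + (2 ^ (2 + (m + 1) * r) - 2)) := by
  intro r
  induction r with
  | zero =>
    exact ⟨F₀, inferInstance, hF, le_rfl, fun l hl => absurd hl (Nat.not_lt_zero _),
      hD.mono (by norm_num) (by norm_num)⟩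
  | succ r ih =>
    obtain ⟨F, h1, h2, h3, h4, h5⟩ := ih
    obtain ⟨F', k1, k2, k3, ⟨i, k4⟩, k5⟩ := stepm (a := a r) m h2 h1 h5 (by omega) (ha r)
      (((hP r).filter_mono h3).mono fun x hx => hx.mono h3)
    refine ⟨F', k1, k2, k3.trans h3, ?_, ?_⟩
    · intro l hl
      rcases Nat.lt_succ_iff_lt_or_eq.1 hl with h6 | rfl
      · obtain ⟨i', h7⟩ := h4 l h6
        exact ⟨i', h7.filter_mono k3⟩
      · exact ⟨i, k4⟩
    · have e : 2 + (m + 1) * r + (m + 1) = 2 + (m + 1) * (r + 1) := by ring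
      rw [e] at k5
      exact k5

theorem lev_fin {α : Type} [Primcodable α] (c : ℕ → Fin k) {h : α → ℕ} (hh : Computable h) {n : ℕ}
    {Q : Fin k → α → Prop} (hQ : ∀ j, Lev (graph c) n (Q j)) :
    Lev (graph c) n fun a => Q (c (h a)) a := by
  classical
  have key : ∀ E : Finset (Fin k), Lev (graph c) n fun a => ∀ j ∈ E, c (h a) = j → Q j a := by
    intro E
    induction E using Finset.induction_on with
    | empty =>
      have h0 : Lev (graph c) n fun a : α => h a = h a := lev_eq hh hh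
      refine h0.congr fun x => ?_
      simp
    | insert e E he ih =>
      refine (Lev.and (Lev.imp (lev_col c hh (Computable.const e)) (hQ e)) ih).congr fun x => ?_
      simp [Finset.forall_mem_insert]
  refine (key Finset.univ).congr fun x => ?_
  constructor
  · intro h1
    exact h1 _ (Finset.mem_univ _) rfl
  · intro h1 j _ hj
    rw [← hj]
    exact h1

theorem levN_trans {G G' : Set ℕ} (h : Lev G 0 fun x : ℕ => x ∈ G') {n : ℕ} {p : ℕ → Prop}
    (hp : LevN G' n p) : Lev G n p := by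
  induction hp with
  | comp hp => exact lev_iff.2 (LevN.comp hp)
  | orc hg => exact h.subst hg
  | not _ ih => exact ih.not
  | and _ _ ih1 ih2 => exact ih1.and ih2
  | ex _ ih =>
    exact (ih.subst (g := fun x : ℕ × ℕ => Nat.pair x.1 x.2) (by fun_prop)).ex

theorem lev_trans {G G' : Set ℕ} (h : Lev G 0 fun x : ℕ => x ∈ G') {α : Type} [Primcodable α]
    {n : ℕ} {p : α → Prop} (hp : Lev G' n p) : Lev G n p := by
  obtain ⟨q, hq, h1⟩ := hp
  exact ((levN_trans h hq).subst Computable.encode).congr fun a => (h1 a).symm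

theorem lev_rec {c g : ℕ → Fin k'} {r : ℕ} (hrec : Rcr c g) (hr : g ∉ D c r) :
    Lev (graph c) (3 * r + 1) fun p : ℕ × Fin k' => g p.1 = p.2 := by
  classical
  have h0 : g ∈ D c 0 := rcr_limit hrec
  have hex : ∃ j, g ∉ D c j := ⟨r, hr⟩
  obtain ⟨j, hj⟩ : ∃ j, Nat.find hex = j + 1 := by
    refine Nat.exists_eq_succ_of_ne_zero fun h => ?_
    have := Nat.find_spec hex
    rw [h] at this
    exact this h0
  have hj1 : g ∉ D c (j + 1) := by rw [← hj]; exact Nat.find_spec hex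
  have hj2 : g ∈ D c j := by
    by_contra h
    have := Nat.find_min' hex h
    omega
  have hjr : j + 1 ≤ r := by
    rw [← hj]
    exact Nat.find_min' hex hr
  exact (lev_point hj2 hj1).mono (show 3 * j + 4 ≤ 3 * r + 1 by omega)

theorem lev_exfin {α : Type} [Primcodable α] {G : Set ℕ} {n : ℕ} {Q : Fin k → α → Prop}
    (hQ : ∀ j, Lev G n (Q j)) : Lev G n fun a => ∃ j, Q j a := by
  classical
  have key : ∀ E : Finset (Fin k), Lev G n fun a => ∃ j ∈ E, Q j a := by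
    intro E
    induction E using Finset.induction_on with
    | empty =>
      have h0 : Lev G n fun _ : α => (0 : ℕ) = 1 :=
        lev_eq (Computable.const 0) (Computable.const 1)
      refine h0.congr fun x => ?_
      simp
    | insert e E he ih =>
      refine (Lev.or (hQ e) ih).congr fun x => ?_
      simp
  refine (key Finset.univ).congr fun x => ?_
  simp

theorem lev_graph {G : Set ℕ} {n : ℕ} {g : ℕ → Fin k} :
    (Lev G n fun x : ℕ => x ∈ graph g) ↔ Lev G n fun p : ℕ × Fin k => g p.1 = p.2 := by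
  constructor
  · intro h
    have h2 : Computable fun p : ℕ × Fin k => Nat.pair p.1 (p.2 : ℕ) :=
      Primrec₂.natPair.to_comp.comp Computable.fst (Primrec.fin_val.to_comp.comp Computable.snd)
    refine (h.subst h2).congr fun p => ?_
    show ((g (Nat.pair p.1 (p.2 : ℕ)).unpair.1 : ℕ) = (Nat.pair p.1 (p.2 : ℕ)).unpair.2) ↔ _
    rw [Nat.unpair_pair]
    exact Fin.ext_iff.symm
  · intro h
    have h1 : Computable fun x : ℕ => x.unpair.1 := by fun_prop
    have h2 := lev_exfin (Q := fun (j : Fin k) (x : ℕ) => g x.unpair.1 = j ∧ x.unpair.2 = (j : ℕ))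
      fun j => Lev.and (h.subst (h1.pair (Computable.const j)))
        (lev_eq (by fun_prop) (Computable.const _))
    refine h2.congr fun x => ?_
    show (∃ j, g x.unpair.1 = j ∧ x.unpair.2 = (j : ℕ)) ↔ ((g x.unpair.1 : ℕ) = x.unpair.2)
    constructor
    · rintro ⟨j, h3, h4⟩
      rw [h3, h4]
    · intro h3
      exact ⟨_, rfl, h3.symm⟩

/-- most sums of `m` return times -/
def Mst (c g : ℕ → Fin k') : ℕ → (ℕ → Prop) → Prop
  | 0, p => p 0
  | m + 1, p => ∃ M : ℕ, ∀ y, Gd c g M y → Mst c g m fun z => p (y + z)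

theorem Mst.mono {c g : ℕ → Fin k'} {m : ℕ} {p q : ℕ → Prop} (hpq : ∀ y, p y → q y)
    (h : Mst c g m p) : Mst c g m q := by
  induction m generalizing p q with
  | zero => exact hpq _ h
  | succ m ih =>
    obtain ⟨M, hM⟩ := h
    exact ⟨M, fun y hy => ih (fun z => hpq (y + z)) (hM y hy)⟩

/-- no shattered translates relative to the return times -/
def Uns3 (c g : ℕ → Fin k') (m : ℕ) (A : Set ℕ) : Prop :=
  ∃ N : ℕ, ∀ x, Gd c g N x → Mst c g m fun y => ∃ P Q : Bool, ∃ n : ℕ,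
    ∀ u, Gd c g n u → ¬ ((y + u ∈ A ↔ P = true) ∧ (x + y + u ∈ A ↔ Q = true))

/-- extensions -/
def Xt (c : ℕ → Fin k) (n m r : ℕ) : Prop :=
  ∃ (k' : ℕ) (f : Fin k → Fin k') (g : ℕ → Fin k') (S : Fin r → Set (Fin k)),
    Rcr (fun n => f (c n)) g ∧ (LevN (graph c) n fun x => x ∈ graph g) ∧
    (∀ i j, i ≠ j → f i = f j → ∃ l, ¬ (i ∈ S l ↔ j ∈ S l)) ∧
    ∀ l, Uns3 (fun n => f (c n)) g m {n | c n ∈ S l}

theorem hh_of_mst {c g : ℕ → Fin k'} {a : ℕ → Fin 2} (x m : ℕ) : ∀ z : ℕ,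
    (Mst c g m fun y => ∃ i j, ∀ᶠ u in RF c g, a (z + y + u) = i → a (x + (z + y + u)) = j) →
    HH (RF c g) a m x z := by
  induction m with
  | zero =>
    rintro z ⟨i, j, h⟩
    exact ⟨i, j, h⟩
  | succ m ih =>
    rintro z ⟨M, hM⟩
    have h1 : ∀ᶠ y in RF c g, HH (RF c g) a m x (z + y) := by
      refine ev_rf.2 ⟨M, fun y hy => ih (z + y) ((hM y hy).mono ?_)⟩
      rintro w ⟨i, j, h2⟩
      refine ⟨i, j, ?_⟩
      filter_upwards [h2] with u hu
      have e : z + y + w + u = z + (y + w) + u := by ring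
      rw [e]
      exact hu
    exact h1

theorem uns3_T {c g : ℕ → Fin k'} {m : ℕ} {A : Set ℕ} {a : ℕ → Fin 2}
    (ha : ∀ x, a x = 1 ↔ x ∈ A) (h : Uns3 c g m A) :
    ∀ᶠ x in RF c g, HH (RF c g) a m x 0 := by
  have h0 : ∀ i : Fin 2, ∀ x, a x = i ↔ (x ∈ A ↔ i = 1) := by
    intro i x
    rw [← ha x]
    generalize a x = e
    revert i e
    decide
  obtain ⟨N, hN⟩ := h
  refine ev_rf.2 ⟨N, fun x h1 => hh_of_mst x m 0 ((hN x h1).mono ?_)⟩
  rintro y ⟨P, Q, n, hn⟩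
  refine ⟨if P = true then 1 else 0, if Q = true then 0 else 1, ev_rf.2 ⟨n, fun u h5 h7 => ?_⟩⟩
  have h8 := hn u h5
  rw [add_assoc] at h8
  rw [zero_add] at h7 ⊢
  rw [h0] at h7 ⊢
  revert h7 h8
  cases P <;> cases Q <;> simp <;> tauto

theorem upper3 {c : ℕ → Fin k} {n m r : ℕ} (h : Xt c n m r) :
    ∃ Z X : Set ℕ, LevN (graph c) (n + 2 ^ (3 + (m + 1) * r)) (· ∈ Z) ∧
      Pool.Agent.Y545.HM.St.Solution c X ∧ Dec Z X := by
  obtain ⟨k', f, g, S, hR, hd, hS1, hS2⟩ := h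
  obtain ⟨c₁, hc₁⟩ : ∃ c₁ : ℕ → Fin k', c₁ = fun n => f (c n) := ⟨_, rfl⟩
  rw [← hc₁] at hR hS2
  have hcl : Lev (graph c) 0 fun p : ℕ × Fin k' => c₁ p.1 = p.2 := by
    have h2 := lev_fin c (n := 0) (h := fun p : ℕ × Fin k' => p.1) Computable.fst
      (Q := fun j p => f j = p.2) fun j => lev_eq (Computable.const _) (by fun_prop)
    rw [hc₁]
    exact h2
  have hgl : Lev (graph c) n fun p : ℕ × Fin k' => g p.1 = p.2 := lev_graph.1 (lev_iff.2 hd)
  have hD := dfn_rf (hcl.mono (Nat.zero_le n)) hgl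
  have := rf_neBot hR
  obtain ⟨S', hS'⟩ : ∃ S' : ℕ → Set (Fin k), ∀ l, S' l = if hl : l < r then S ⟨l, hl⟩ else ∅ :=
    ⟨_, fun l => rfl⟩
  have hconst : ∀ (m x z : ℕ), HH (RF c₁ g) (ind {n | c n ∈ (∅ : Set (Fin k))}) m x z := by
    intro m x
    induction m with
    | zero =>
      intro z
      refine ⟨0, 0, Eventually.of_forall fun u _ => ?_⟩
      unfold ind
      simp
    | succ m ih => exact fun z => Eventually.of_forall fun y => ih (z + y)
  obtain ⟨F, h1, h2, h3, h4, h5⟩ := iter3 (graph c) sg_rf hD m (fun l => ind {n | c n ∈ S' l})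
    (fun l i => lev_ind c (S' l) i) (fun l => by
      rw [hS' l]
      split_ifs with hl
      · exact uns3_T (fun x => ind_one) (hS2 ⟨l, hl⟩)
      · exact Eventually.of_forall fun x => hconst m x 0) r
  have h6 : ∀ᶠ x in F, ∀ l : Fin r, ∀ y, (∀ᶠ z in F, ind {n | c n ∈ S' l} z = y) →
      ind {n | c n ∈ S' l} x = y := by
    refine eventually_all.2 fun l => eventually_all.2 fun y => ?_
    by_cases h7 : ∀ᶠ z in F, ind {n | c n ∈ S' l} z = y
    · filter_upwards [h7] with x hx _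
      exact hx
    · exact Eventually.of_forall fun x h8 => absurd h8 h7
  have h8 : ∀ᶠ x in F, c₁ x = g 0 := rf_dec.filter_mono h3
  obtain ⟨x0, hx0, hx1⟩ := (h6.and h8).exists
  have h7 : ∀ᶠ x in F, c x = c x0 := by
    filter_upwards [h6, h8] with x hx hx8
    by_contra hne
    have hf : f (c x) = f (c x0) := by
      rw [hc₁] at hx8 hx1
      exact hx8.trans hx1.symm
    obtain ⟨l, hl⟩ := hS1 _ _ hne hf
    obtain ⟨i, hi⟩ := h4 l l.2
    have k1 := hx l i hi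
    have k2 := hx0 l i hi
    have e0 : S' (l : ℕ) = S l := by rw [hS']; simp
    rw [e0] at k1 k2
    have e1 : ∀ x, c x ∈ S l ↔ ind {n | c n ∈ S l} x = 1 :=
      fun x => (ind_one (A := {n | c n ∈ S l})).symm
    apply hl
    rw [e1, e1, k1, k2]
  obtain ⟨Z, X, k1, k2, k3⟩ := final h2 (h3.trans rf_le) h7 h5
  refine ⟨Z, X, k1.mono ?_, k2, k3⟩
  have e : 2 ^ (3 + (m + 1) * r) = 2 * 2 ^ (2 + (m + 1) * r) := by
    rw [show 3 + (m + 1) * r = (2 + (m + 1) * r) + 1 by ring, pow_succ]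
    ring
  have e2 : 4 ≤ 2 ^ (2 + (m + 1) * r) := by
    calc 4 = 2 ^ 2 := by norm_num
      _ ≤ 2 ^ (2 + (m + 1) * r) := Nat.pow_le_pow_right (by norm_num) (by omega)
  omega

theorem Mst.trans {c g : ℕ → Fin k'} {k₀ : ℕ} {c₀ g₀ : ℕ → Fin k₀}
    (hle : ∀ n u, Gd c g n u → Gd c₀ g₀ n u) {m : ℕ} {p : ℕ → Prop} (h : Mst c₀ g₀ m p) :
    Mst c g m p := by
  induction m generalizing p with
  | zero => exact h
  | succ m ih =>
    obtain ⟨M, hM⟩ := h
    exact ⟨M, fun y hy => ih (hM y (hle _ _ hy))⟩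

/-- recurrent limits of finite rank are arithmetical -/
theorem rank_lev {c : ℕ → Fin k} (f : Fin k → Fin k') {g : ℕ → Fin k'} {d : ℕ}
    (hR : Rcr (fun n => f (c n)) g) (hd : g ∉ D (fun n => f (c n)) d) :
    LevN (graph c) (3 * d + 1) fun x => x ∈ graph g := by
  have hgr : Lev (graph c) 0 fun x : ℕ => x ∈ graph (fun n => f (c n)) := by
    have h1 : Computable fun n : ℕ => n.unpair.1 := by fun_prop
    exact lev_fin c (n := 0) (h := fun n : ℕ => n.unpair.1) h1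
      (Q := fun j n => ((f j : ℕ) = n.unpair.2))
      fun j => lev_eq (Computable.const _) (by fun_prop)
  exact lev_iff.1 (lev_graph.2 (lev_trans hgr (lev_rec hR hd)))

theorem uns3_mono {c g : ℕ → Fin k'} {m : ℕ} {A : Set ℕ}
    (h : Uns3 (k' := 1) (fun _ => 0) (fun _ => 0) m A) : Uns3 c g m A := by
  obtain ⟨N, hN⟩ := h
  have hle : ∀ n u, Gd c g n u → Gd (k' := 1) (fun _ => 0) (fun _ => 0) n u :=
    fun n u hu => ⟨hu.1, hu.2.1, fun _ _ => ⟨rfl, rfl⟩⟩
  refine ⟨N, fun x hx => ((hN x (hle _ _ hx)).trans hle).mono ?_⟩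
  rintro y ⟨P, Q, n, hn⟩
  exact ⟨P, Q, n, fun u hu => hn u (hle _ _ hu)⟩

theorem xt_of_rank {c : ℕ → Fin k} {d : ℕ} (hd : D c d = ∅) : Xt c (3 * d + 1) 0 0 := by
  obtain ⟨g, hg⟩ := exists_rcr c
  refine ⟨k, fun i => i, g, fun _ => ∅, hg, rank_lev (fun i => i) hg (by
      have h : D (fun n => c n) d = ∅ := hd
      rw [h]
      exact notMem_empty g), fun i j hij h1 => absurd h1 hij, fun l => l.elim0⟩

end Pool.Agent.X224.SG
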