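import Pool.Agent.X224.SG.Comb
import Pool.Agent.Y545.HM.St

/-! The lower bound: the colourings which code the jump have no shattered pairs. -/

set_option autoImplicit false

namespace Pool.Agent.X224.SG

open Filter Set Pool.Agent.Y545.HM Pool.Agent.Helper446.Oracle

theorem key_cl {q : ℕ → ℕ → Bool} {m : ℕ} (hm : Tc q m) : ∀ a < 2 ^ m, ∀ t, 1 ≤ t →
    nG q (En q (a + 2 ^ m * t)) (a + 2 ^ m * t) =
      nG q (Dm q m) a + nG q (En q (2 ^ m * t)) (2 ^ m * t) := by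
  classical
  intro a ha t ht
  have h0 : En q (a + 2 ^ m * t) = En q (2 ^ m * t) := funext fun x => propext (en_add ha ht x)
  rw [h0]
  have hne : (su (2 ^ m * t)).Nonempty := su_nonempty (by positivity)
  have h1 : ∀ x, x < m → (En q (2 ^ m * t) x ↔ Dm q m x) := by
    intro x hx
    rw [en_iff]
    constructor
    · rintro ⟨w, hw, h2⟩
      exact hm x hx h2.df
    · intro h2
      obtain ⟨w, hw⟩ := hne
      exact ⟨w, hw, h2.mono (le_of_mem_su hw)⟩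
  rcases Nat.eq_zero_or_pos a with h2 | h2
  · subst h2
    have h3 : nG q (Dm q m) 0 = 0 := by
      unfold nG su
      rw [Nat.bitIndices_zero]
      simp [gp_empty]
    rw [h3, Nat.zero_add, Nat.zero_add]
  · obtain ⟨u, hu, -, v, hv, hmv, -, h3, -⟩ := nG_add (q := q) (En q (2 ^ m * t)) ha h2 ht
    rw [h3, nG_congr ha h1]
    rintro ⟨x, hx, h4, h5⟩
    have h6 := lt_of_mem_su_of_lt hu ha
    exact h5 (((h1 x (by omega)).1 h4).mono hmv)

theorem cl_T (q : ℕ → ℕ → Bool) (x : ℕ) : ∃ j, T Far (cl q) x 0 j := by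
  obtain ⟨m, hm1, hm2⟩ := (tc_infinite (q := q)).exists_gt x
  have hx : x < 2 ^ m := hm2.trans Nat.lt_two_pow_self
  refine ⟨⟨nG q (Dm q m) x % 2, Nat.mod_lt _ (by norm_num)⟩, ?_⟩
  unfold T
  refine ev_far.2 ⟨2 ^ m, fun u h1 h2 h3 => ?_⟩
  obtain ⟨t, rfl⟩ : 2 ^ m ∣ u := (Nat.dvd_factorial (by positivity) le_rfl).trans h2
  have ht : 1 ≤ t := Nat.pos_of_mul_pos_left h1
  have h4 := key_cl hm1 x hx t ht
  have h5 : nG q (En q (2 ^ m * t)) (2 ^ m * t) % 2 = 0 := congrArg Fin.val h3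
  apply Fin.ext
  show nG q (En q (x + 2 ^ m * t)) (x + 2 ^ m * t) % 2 = nG q (Dm q m) x % 2
  rw [h4]
  omega

theorem lower_T {A S : Set ℕ} (hS : REIn A (· ∈ S)) : ∃ c : ℕ → Fin 2, Gr A c ∧
    (∀ x, ∃ j, T Far c x 0 j) ∧ ∀ B Y, Dec B A → Dec B Y → Sol c Y → Dec B S := by
  obtain ⟨q, hq, hq2⟩ := exists_q hS
  refine ⟨cl q, gr_cl hq, cl_T q, fun B Y hBA hBY hY => ⟨re_lift hS hBA, ?_⟩⟩
  exact (re_not_k (hq.lift hBA) hBY hY).of_eq fun x => not_congr (hq2 x).symm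

end Pool.Agent.X224.SG
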