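import Pool.Agent.X224.SG.Sharp
import Pool.Agent.X224.SG.Low

/-! Colourings without shattered pairs: the translation of the definitions. -/

set_option autoImplicit false

namespace Pool.Agent.X224.SG

open Filter Set Encodable
open Pool.Agent.Y579.HM Pool.Agent.X224.HR
open Pool.Agent.Helper446.Oracle Pool.Agent.Helper446
open Pool.Agent.Y545.HM (Dec Gr Idl Jmp HTI)

/-- no shattered pairs `{0, x}` -/
def Uns (A : Set ℕ) : Prop :=
  ∃ N : ℕ, ∀ x, 0 < x → N.factorial ∣ x → ∃ P Q : Bool, ∃ m : ℕ,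
    ∀ u, 0 < u → m.factorial ∣ u → ¬ ((u ∈ A ↔ P = true) ∧ (x + u ∈ A ↔ Q = true))

/-- combinations -/
def Cmb {k : ℕ} (c : ℕ → Fin k) (r : ℕ) : Prop :=
  ∃ S : Fin r → Set (Fin k), (∀ i j, i ≠ j → ∃ l, ¬ (i ∈ S l ↔ j ∈ S l)) ∧
    ∀ l, Uns {n | c n ∈ S l}

open Classical in
/-- indicator functions with two values -/
noncomputable def ind (A : Set ℕ) (x : ℕ) : Fin 2 := if x ∈ A then 1 else 0

theorem ind_one {A : Set ℕ} {x : ℕ} : ind A x = 1 ↔ x ∈ A := by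
  unfold ind
  by_cases h : x ∈ A <;> simp [h]

theorem uns_T {A : Set ℕ} {a : ℕ → Fin 2} (ha : ∀ x, a x = 1 ↔ x ∈ A) :
    Uns A ↔ ∀ᶠ x in Far, ∃ i j, T Far a x i j := by
  have h0 : ∀ i : Fin 2, ∀ x, a x = i ↔ (x ∈ A ↔ i = 1) := by
    intro i x
    rw [← ha x]
    generalize a x = e
    revert i e
    decide
  constructor
  · rintro ⟨N, hN⟩
    refine ev_far.2 ⟨N, fun x h1 h2 => ?_⟩
    obtain ⟨P, Q, m, hm⟩ := hN x h1 h2
    refine ⟨if P = true then 1 else 0, if Q = true then 0 else 1, ev_far.2 ⟨m, fun u h3 h4 h5 => ?_⟩⟩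
    have h6 := hm u h3 h4
    rw [h0] at h5 ⊢
    revert h5 h6
    cases P <;> cases Q <;> simp <;> tauto
  · intro h
    obtain ⟨N, hN⟩ := ev_far.1 h
    refine ⟨N, fun x h1 h2 => ?_⟩
    obtain ⟨i, j, hij⟩ := hN x h1 h2
    obtain ⟨m, hm⟩ := ev_far.1 hij
    refine ⟨decide (i = 1), decide (j = 0), m, fun u h3 h4 h5 => ?_⟩
    have h6 := hm u h3 h4
    rw [h0, h0] at h6
    obtain ⟨h7, h8⟩ := h5
    rw [decide_eq_true_iff] at h7 h8
    have h9 := h6 h7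
    rw [h9] at h8
    have h10 : ∀ e : Fin 2, ¬ (e = 1 ↔ e = 0) := by decide
    exact h10 j h8

theorem lev_mem {k : ℕ} (c : ℕ → Fin k) (S : Set (Fin k)) :
    Lev (graph c) 0 fun x : ℕ => c x ∈ S := by
  classical
  have h : ∀ E : Finset (Fin k), Lev (graph c) 0 fun x : ℕ => c x ∈ E := by
    intro E
    induction E using Finset.induction_on with
    | empty =>
      refine (lev_lt (f := fun x : ℕ => x) (g := fun x : ℕ => x) (by fun_prop)
        (by fun_prop)).congr fun x => ?_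
      simp
    | insert e E he ih =>
      refine (Lev.or (lev_col c Computable.id (Computable.const e)) ih).congr fun x => ?_
      simp
  refine (h (Finset.univ.filter (· ∈ S))).congr fun x => ?_
  simp

theorem lev_ind {k : ℕ} (c : ℕ → Fin k) (S : Set (Fin k)) (i : Fin 2) :
    Lev (graph c) 0 fun x : ℕ => ind {n | c n ∈ S} x = i := by
  have h1 := lev_mem c S
  have e : i = 1 ∨ i = 0 := by revert i; decide
  rcases e with rfl | rfl
  · exact h1.congr fun x => (ind_one (A := {n | c n ∈ S})).symm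
  · refine (lev_mem c Sᶜ).congr fun x => ?_
    show ¬ (c x ∈ S) ↔ _
    have h2 : (c x ∈ S) ↔ ind {n | c n ∈ S} x = 1 := (ind_one (A := {n | c n ∈ S})).symm
    rw [h2]
    generalize ind {n | c n ∈ S} x = e
    revert e
    decide

variable {k : ℕ} {c : ℕ → Fin k}

theorem upper_one (h : Cmb c 1) :
    ∃ Z X : Set ℕ, LevN (graph c) 2 (· ∈ Z) ∧ Pool.Agent.Y545.HM.St.Solution c X ∧
      Dec Z X := by
  obtain ⟨S, hS1, hS2⟩ := h
  obtain ⟨Z, i, h1, h2, h3⟩ := sharp ((uns_T (fun x => ind_one)).1 (hS2 0))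
  obtain ⟨X, h4, h5, h6, h7⟩ := greedy h2
  obtain ⟨x0, hx0⟩ := h4.nonempty
  refine ⟨Z, X, lev_iff.1 (h3 _ (lev_ind c (S 0))), ⟨h4, h5, c x0, fun E hE hne => ?_⟩, h7⟩
  have k1 := h1 _ (h6 E hE hne)
  have k2 := h1 _ (h6 {x0} (by simpa using hx0) ⟨x0, by simp⟩)
  rw [Finset.sum_singleton] at k2
  by_contra hne2
  obtain ⟨l, hl⟩ := hS1 _ _ hne2
  have h0 : l = 0 := Subsingleton.elim _ _
  subst h0
  apply hl
  have e1 : ∀ x, c x ∈ S 0 ↔ ind {n | c n ∈ S 0} x = 1 :=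
    fun x => (ind_one (A := {n | c n ∈ S 0})).symm
  rw [e1, e1, k1, k2]

theorem upper_many {r : ℕ} (h : Cmb c r) :
    ∃ Z X : Set ℕ, LevN (graph c) (2 ^ (r + 2)) (· ∈ Z) ∧
      Pool.Agent.Y545.HM.St.Solution c X ∧ Dec Z X := by
  obtain ⟨S, hS1, hS2⟩ := h
  obtain ⟨S', hS'⟩ : ∃ S' : ℕ → Set (Fin k), ∀ l, S' l = if hl : l < r then S ⟨l, hl⟩ else ∅ :=
    ⟨_, fun l => rfl⟩
  obtain ⟨F, h1, h2, h3, h4, h5⟩ := iter (graph c) (fun l => ind {n | c n ∈ S' l})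
    (fun l i => lev_ind c (S' l) i) (fun l => by
      rw [hS' l]
      split_ifs with hl
      · exact (uns_T (fun x => ind_one)).1 (hS2 ⟨l, hl⟩)
      · refine Eventually.of_forall fun x => ⟨0, 0, Eventually.of_forall fun u _ => ?_⟩
        unfold ind
        simp) r
  have h6 : ∀ᶠ x in F, ∀ l : Fin r, ∀ y, (∀ᶠ z in F, ind {n | c n ∈ S' l} z = y) →
      ind {n | c n ∈ S' l} x = y := by
    refine eventually_all.2 fun l => eventually_all.2 fun y => ?_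
    by_cases h7 : ∀ᶠ z in F, ind {n | c n ∈ S' l} z = y
    · filter_upwards [h7] with x hx _
      exact hx
    · exact Eventually.of_forall fun x h8 => absurd h8 h7
  obtain ⟨x0, hx0⟩ := h6.exists
  have h7 : ∀ᶠ x in F, c x = c x0 := by
    filter_upwards [h6] with x hx
    by_contra hne
    obtain ⟨l, hl⟩ := hS1 _ _ hne
    obtain ⟨i, hi⟩ := h4 l l.2
    have k1 := hx l i hi
    have k2 := hx0 l i hi
    have e0 : S' (l : ℕ) = S l := by rw [hS']; simp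
    rw [e0] at k1 k2
    have e1 : ∀ x, c x ∈ S l ↔ ind {n | c n ∈ S l} x = 1 :=
      fun x => (ind_one (A := {n | c n ∈ S l})).symm
    apply hl
    rw [e1, e1, k1, k2]
  obtain ⟨Z, X, k1, k2, k3⟩ := final h2 h3 h7 h5
  exact ⟨Z, X, k1.mono (by rw [pow_succ 2 (r + 1)]; omega), k2, k3⟩

theorem cmb_of {c : ℕ → Fin 2} (h : ∀ᶠ x in Far, ∃ i j, T Far c x i j) : Cmb c 1 := by
  refine ⟨fun _ => {1}, ?_, fun l => ?_⟩
  · intro i j hij
    refine ⟨0, ?_⟩
    simp only [mem_singleton_iff]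
    revert i j
    decide
  · exact (uns_T (a := c) (fun x => by simp)).2 h

theorem lower {A S : Set ℕ} (hS : REIn A (· ∈ S)) : ∃ c : ℕ → Fin 2, Gr A c ∧ Cmb c 1 ∧
    ∀ B Y, Dec B A → Dec B Y → Pool.Agent.Y545.HM.Sol c Y → Dec B S := by
  obtain ⟨c, h1, h2, h3⟩ := lower_T hS
  refine ⟨c, h1, cmb_of (Eventually.of_forall fun x => ?_), h3⟩
  obtain ⟨j, hj⟩ := h2 x
  exact ⟨0, j, hj⟩

end Pool.Agent.X224.SG
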