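import Pool.Agent.X224.SG.Def

/-! Two-colourings without shattered pairs: two jumps. -/

set_option autoImplicit false

namespace Pool.Agent.X224.SG

open Filter Set Encodable
open Pool.Agent.Y579.HM Pool.Agent.X224.HR
open Pool.Agent.Helper446.Oracle Pool.Agent.Helper446
open Pool.Agent.Y545.HM (Dec Gr Idl Jmp HTI)

variable {a : ℕ → Fin 2}

/-- the condition for the greedy construction -/
def Gdy (Z : Set ℕ) : Prop := ∀ (S : Finset ℕ) (N : ℕ), (∀ s ∈ S, s ∈ Z) →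
    ∃ y, N < y ∧ y ∈ Z ∧ ∀ s ∈ S, s + y ∈ Z

theorem ev_gt (N : ℕ) : ∀ᶠ y in Far, N < y := ev_far.2 ⟨N + 1, fun u h1 h2 => by
  have h3 := Nat.le_of_dvd h1 h2
  have h4 := Nat.self_le_factorial (N + 1)
  omega⟩

theorem gdy_of {Z : Set ℕ} (h1 : ∃ᶠ y in Far, y ∈ Z)
    (h2 : ∀ s ∈ Z, ∀ᶠ y in Far, y ∈ Z → s + y ∈ Z) : Gdy Z := by
  intro S N hS
  have h3 : ∀ᶠ y in Far, ∀ s ∈ S, y ∈ Z → s + y ∈ Z :=
    (Filter.eventually_all_finset S).2 fun s hs => h2 s (hS s hs)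
  obtain ⟨y, hy1, hy2, hy3⟩ := (h1.and_eventually ((ev_gt N).and h3)).exists
  exact ⟨y, hy2, hy1, fun s hs => hy3 s hs hy1⟩

theorem lev_dvd (G : Set ℕ) (N : ℕ) : Lev G 2 fun x : ℕ => N.factorial ∣ x := by
  have h : Lev G 2 fun x : ℕ => x % N.factorial = 0 := lev_eq (by fun_prop) (by fun_prop)
  exact h.congr fun x => (Nat.dvd_iff_mod_eq_zero).symm

theorem sharp (hP : ∀ᶠ x in Far, ∃ i j, T Far a x i j) :
    ∃ (Z : Set ℕ) (i : Fin 2), (∀ x ∈ Z, a x = i) ∧ Gdy Z ∧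
      ∀ G, (∀ i, Lev G 0 fun x : ℕ => a x = i) → Lev G 2 fun x => x ∈ Z := by
  have hF := sg_far
  by_cases h1 : ∃ i, ∃ᶠ y in Far, a y = i ∧ T Far a y i i
  · obtain ⟨i, hi⟩ := h1
    refine ⟨{x | a x = i ∧ T Far a x i i}, i, fun x hx => hx.1, gdy_of hi fun y hy => ?_,
      fun G hG => Lev.and ((hG i).mono (Nat.zero_le _)) (lev_T (dfn_far G) hG i i)⟩
    filter_upwards [comp hF hy.2, hy.2] with z hz1 hz2 hz
    exact ⟨hz2 hz.1, hz1 i hz.2⟩
  push Not at h1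
  have h1' : ∀ᶠ y in Far, ∀ i, ¬ (a y = i ∧ T Far a y i i) :=
    ev_fin2 fun i => (h1 i).mono fun y hy h => hy h.1 h.2
  by_cases h2 : ∃ i j, i ≠ j ∧ ∃ᶠ y in Far, a y = i ∧ T Far a y j j
  · obtain ⟨i, j, hij, hi⟩ := h2
    obtain ⟨N, hN⟩ := ev_far.1 h1'
    have hev : ∀ᶠ y in Far, 0 < y ∧ N.factorial ∣ y := ev_far.2 ⟨N, fun u k1 k2 => ⟨k1, k2⟩⟩
    refine ⟨{x | (a x = i ∧ T Far a x j j) ∧ N.factorial ∣ x}, i, fun x hx => hx.1.1,
      gdy_of ((hi.and_eventually hev).mono fun y hy => ⟨hy.1, hy.2.2⟩) fun y hy => ?_,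
      fun G hG => Lev.and (Lev.and ((hG i).mono (Nat.zero_le _)) (lev_T (dfn_far G) hG j j))
        (lev_dvd G N)⟩
    filter_upwards [comp hF hy.1.2, hev] with z hz1 hz2 hz
    have h3 := hz1 j hz.1.2
    have h4 := hN (y + z) (by omega) (dvd_add hy.2 hz2.2)
    exact ⟨⟨fin2_of_ne hij fun h5 => h4 j ⟨h5, h3⟩, h3⟩, dvd_add hy.2 hz2.2⟩
  push Not at h2
  have h3 : ∀ᶠ y in Far, ∀ j, ¬ T Far a y j j := by
    have h4 : ∀ᶠ y in Far, ∀ i, ∀ j, i ≠ j → ¬ (a y = i ∧ T Far a y j j) := by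
      refine ev_fin2 fun i => ev_fin2 fun j => ?_
      by_cases hij : i = j
      · exact Eventually.of_forall fun y h => absurd hij h
      · exact (h2 i j hij).mono fun y hy _ h => hy h.1 h.2
    filter_upwards [h1', h4] with y hy1 hy2 j hj
    by_cases h5 : a y = j
    · exact hy1 j ⟨h5, hj⟩
    · exact hy2 (a y) j h5 ⟨rfl, hj⟩

  have hbd : ∃ i j, i ≠ j ∧ (∀ᶠ z in Far, T Far a z i j) := by
    obtain ⟨i, j, hij, hfr⟩ : ∃ i j, i ≠ j ∧ ∃ᶠ y in Far, T Far a y i j := by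
      by_contra hcon
      push Not at hcon
      have h4 : ∀ᶠ y in Far, ∀ i, ∀ j, i ≠ j → ¬ T Far a y i j := by
        refine ev_fin2 fun i => ev_fin2 fun j => ?_
        by_cases hij : i = j
        · exact Eventually.of_forall fun y h => absurd hij h
        · exact (hcon i j hij).mono fun y hy _ => hy
      obtain ⟨y, hy1, hy2, i, j, hy3⟩ := (h3.and (h4.and hP)).exists
      by_cases hij : i = j
      · subst hij
        exact hy1 i hy3
      · exact hy2 i j hij hy3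
    refine ⟨i, j, hij, ?_⟩
    by_contra hcon
    have hcon' : ∃ᶠ z in Far, ¬ T Far a z i j := not_eventually.1 hcon
    have h5 : ∃ᶠ z in Far, T Far a z j i := by
      refine (hcon'.and_eventually (h3.and hP)).mono ?_
      rintro z ⟨hz1, hz2, i', j', hz3⟩
      have hne : i' ≠ j' := fun h => by
        subst h
        exact hz2 i' hz3
      have h6 : i' = j ∧ j' = i := fin2_swap i j i' j' hij hne
        fun h => hz1 (by rw [← h.1, ← h.2]; exact hz3)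
      rw [← h6.1, ← h6.2]
      exact hz3
    obtain ⟨y, hy1, hy2⟩ := (hfr.and_eventually (hF.shift h3)).exists
    obtain ⟨z, hz1, hz2, hz3⟩ := (h5.and_eventually ((comp hF hy1).and hy2)).exists
    exact hz3 j (hz2 j hz1)
  obtain ⟨i, j, hij, h4⟩ := hbd
  have hfr : ∃ᶠ z in Far, a z = i := by
    intro hcon
    have h5 : ∀ᶠ z in Far, a z = j := hcon.mono fun z hz => fin2_of_ne hij.symm hz
    obtain ⟨y, hy1, hy2⟩ := ((hF.shift h5).and h3).exists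
    refine hy2 j ?_
    unfold T
    filter_upwards [hy1] with u hu _
    exact hu
  obtain ⟨N, hN⟩ := ev_far.1 h4
  refine ⟨{x | a x = j ∧ N.factorial ∣ x}, j, fun x hx => hx.1, ?_,
    fun G hG => Lev.and ((hG j).mono (Nat.zero_le _)) (lev_dvd G N)⟩
  intro S M hS
  have hev : ∀ᶠ y in Far, 0 < y ∧ N.factorial ∣ y := ev_far.2 ⟨N, fun u k1 k2 => ⟨k1, k2⟩⟩
  obtain ⟨y, hy1, hy2, hy3⟩ := ((ev_gt M).and hev).exists
  have h5 : ∀ᶠ z in Far, ∀ s ∈ S, a z = i → a (s + y + z) = j :=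
    (Filter.eventually_all_finset S).2 fun s hs => hN (s + y) (by omega)
      (dvd_add (hS s hs).2 hy3)
  obtain ⟨z, hz1, hz2, hz3, hz4⟩ := (hfr.and_eventually ((hN y hy2 hy3).and (h5.and hev))).exists
  refine ⟨y + z, by omega, ⟨hz2 hz1, dvd_add hy3 hz4.2⟩, fun s hs => ?_⟩
  rw [← add_assoc]
  exact ⟨hz3 s hs hz1, dvd_add (dvd_add (hS s hs).2 hy3) hz4.2⟩

end Pool.Agent.X224.SG
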