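import Pool.Agent.X224.SG.Ext

/-! Solutions of computable colourings as sets definable in arithmetic. -/

set_option autoImplicit false

namespace Pool.Agent.X224.SG

open Filter Set Encodable
open Pool.Agent.Y579.HM Pool.Agent.X224.HR
open Pool.Agent.Helper446.Oracle Pool.Agent.Helper446
open Pool.Agent.Y545.HM (Dec Gr Idl Jmp HTI)

variable {k : ℕ}

theorem lev_of_rein {G Z : Set ℕ} {n : ℕ} (hZ : Lev G n fun x : ℕ => x ∈ Z) {S : ℕ → Prop}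
    (hS : REIn Z S) : Lev G (n + 2) S := by
  obtain ⟨R, hR, hR2⟩ := hS
  obtain ⟨q, hq, hq2⟩ := RE.re_iff.1 hR
  have h1 : Lev G 0 fun x : (ℕ × (List ℕ × List ℕ)) × ℕ => q x.1 x.2 = true :=
    Lev.of_comp hq
  have h2 : Lev G 1 fun x : ℕ × (List ℕ × List ℕ) => R x.1 x.2 := h1.ex.congr fun x => (hq2 x).symm
  have e1 : Computable fun x : (ℕ × (List ℕ × List ℕ)) × (ℕ × ℕ) => x.1.2.1[x.2.1]? :=
    Primrec.list_getElem?.to_comp.comp (by fun_prop) (by fun_prop)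
  have e2 : Computable fun x : (ℕ × (List ℕ × List ℕ)) × (ℕ × ℕ) => x.1.2.2[x.2.1]? :=
    Primrec.list_getElem?.to_comp.comp (by fun_prop) (by fun_prop)
  have e3 : Computable fun x : (ℕ × (List ℕ × List ℕ)) × (ℕ × ℕ) => (some x.2.2 : Option ℕ) :=
    Computable.option_some.comp (by fun_prop)
  have h3 : Lev G n fun x : (ℕ × (List ℕ × List ℕ)) × (ℕ × ℕ) =>
      (x.1.2.1[x.2.1]? = some x.2.2 → x.2.2 ∈ Z) ∧ (x.1.2.2[x.2.1]? = some x.2.2 → ¬ x.2.2 ∈ Z) :=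
    Lev.and (Lev.imp (lev_eq e1 e3) (hZ.subst (g := fun x : (ℕ × (List ℕ × List ℕ)) × (ℕ × ℕ) =>
      x.2.2) (by fun_prop)))
      (Lev.imp (lev_eq e2 e3) (Lev.not (hZ.subst
        (g := fun x : (ℕ × (List ℕ × List ℕ)) × (ℕ × ℕ) => x.2.2) (by fun_prop))))
  have h4 : Lev G (n + 1) fun x : ℕ × (List ℕ × List ℕ) => R x.1 x.2 ∧ Ok Z x.2 := by
    refine (Lev.and (h2.mono (by omega)) h3.all).congr fun x => and_congr Iff.rfl ?_
    unfold Ok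
    constructor
    · intro h
      refine ⟨fun y hy => ?_, fun y hy => ?_⟩
      · obtain ⟨i, hi⟩ := List.mem_iff_getElem?.1 hy
        exact (h (i, y)).1 hi
      · obtain ⟨i, hi⟩ := List.mem_iff_getElem?.1 hy
        exact (h (i, y)).2 hi
    · rintro ⟨h5, h6⟩ ⟨i, y⟩
      exact ⟨fun h7 => h5 y (List.mem_iff_getElem?.2 ⟨i, h7⟩),
        fun h7 => h6 y (List.mem_iff_getElem?.2 ⟨i, h7⟩)⟩
  exact h4.ex.congr fun x => (hR2 x).symm

theorem sol_lev {c : ℕ → Fin k} (hc : Computable c) {N : ℕ}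
    (h : ∃ Z X : Set ℕ, LevN (graph c) N (· ∈ Z) ∧ Pool.Agent.Y545.HM.St.Solution c X ∧
      Dec Z X) : ∃ X : Set ℕ, LevN ∅ (N + 2) (· ∈ X) ∧ Pool.Agent.Y545.HM.St.Solution c X := by
  obtain ⟨Z, X, h1, h2, h3⟩ := h
  have h0 : Lev (∅ : Set ℕ) 0 fun p : ℕ × Fin k => c p.1 = p.2 :=
    lev_eq (hc.comp Computable.fst) Computable.snd
  have h4 : Lev (∅ : Set ℕ) 0 fun x : ℕ => x ∈ graph c := lev_graph.2 h0
  have h5 : Lev (∅ : Set ℕ) N fun x : ℕ => x ∈ Z := levN_trans h4 h1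
  exact ⟨X, lev_iff.1 (lev_of_rein h5 h3.1), h2⟩

end Pool.Agent.X224.SG
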