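import Pool.Agent.X224.SG.Sig

/-! Thin solutions. -/

set_option autoImplicit false

namespace Pool.Agent.X224.SG

open Filter Set Encodable
open Pool.Agent.Y579.HM Pool.Agent.X224.HR
open Pool.Agent.Helper446.Oracle Pool.Agent.Helper446
open Pool.Agent.Y545.HM (Dec Gr Idl Jmp HTI)

/-- the graph of a colouring with infinitely many colours -/
def gph (c : ℕ → ℕ) : Set ℕ := {n | c n.unpair.1 = n.unpair.2}

/-- thin solutions -/
def Thin (c : ℕ → ℕ) (X : Set ℕ) : Prop :=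
  X.Infinite ∧ 0 ∉ X ∧ ∃ i, ∀ F : Finset ℕ, (F : Set ℕ) ⊆ X → F.Nonempty → c (∑ x ∈ F, x) ≠ i

theorem lev_gph (c : ℕ → ℕ) (S : Finset ℕ) :
    Lev (gph c) 0 fun x : ℕ => x ∈ graph (ind {n | c n ∈ S}) := by
  classical
  have h0 : ∀ j : ℕ, Lev (gph c) 0 fun x : ℕ => c x = j := by
    intro j
    have h1 : Lev (gph c) 0 fun m : ℕ => m ∈ gph c := lev_iff.2 (LevN.orc Computable.id)
    have h2 : Computable fun x : ℕ => Nat.pair x j :=
      Primrec₂.natPair.to_comp.comp Computable.id (Computable.const j)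
    refine (h1.subst h2).congr fun x => ?_
    show (c (Nat.pair x j).unpair.1 = (Nat.pair x j).unpair.2) ↔ _
    rw [Nat.unpair_pair]
  have h : ∀ E : Finset ℕ, Lev (gph c) 0 fun x : ℕ => c x ∈ E := by
    intro E
    induction E using Finset.induction_on with
    | empty =>
      refine (lev_lt (f := fun x : ℕ => x) (g := fun x : ℕ => x) (by fun_prop)
        (by fun_prop)).congr fun x => ?_
      simp
    | insert e E he ih =>
      refine (Lev.or (h0 e) ih).congr fun x => ?_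
      simp
  refine lev_graph.2 ?_
  have h3 : Lev (gph c) 0 fun p : ℕ × Fin 2 => (c p.1 ∈ S ∧ p.2 = 1) ∨ (¬ c p.1 ∈ S ∧ p.2 = 0) :=
    Lev.or (Lev.and ((h S).subst Computable.fst) (lev_eq Computable.snd (Computable.const 1)))
      (Lev.and (Lev.not ((h S).subst Computable.fst))
        (lev_eq Computable.snd (Computable.const 0)))
  refine h3.congr fun p => ?_
  obtain ⟨x, i⟩ := p
  have h4 : (c x ∈ S) ↔ ind {n | c n ∈ S} x = 1 := (ind_one (A := {n | c n ∈ S})).symm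
  show (c x ∈ S ∧ i = 1) ∨ (¬ c x ∈ S ∧ i = 0) ↔ ind {n | c n ∈ S} x = i
  rw [h4]
  generalize ind {n | c n ∈ S} x = e
  revert e i
  decide

theorem thin_of {c : ℕ → ℕ} {S : Finset ℕ} (hS : S.Nonempty) {N : ℕ}
    (h : ∃ Z X : Set ℕ, LevN (graph (ind {n | c n ∈ S})) N (· ∈ Z) ∧
      Pool.Agent.Y545.HM.St.Solution (ind {n | c n ∈ S}) X ∧ Dec Z X) :
    ∃ Z X : Set ℕ, LevN (gph c) N (· ∈ Z) ∧ Thin c X ∧ Dec Z X := by
  obtain ⟨Z, X, h1, ⟨h2, h3, j, h4⟩, h5⟩ := h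
  refine ⟨Z, X, lev_iff.1 (levN_trans (lev_gph c S) h1), ⟨h2, h3, ?_⟩, h5⟩
  have e1 : ∀ x, ind {n | c n ∈ S} x = 1 ↔ c x ∈ S := fun x => ind_one
  have ej : ∀ j : Fin 2, j = 1 ∨ j = 0 := by decide
  rcases ej j with rfl | rfl
  · obtain ⟨i, hi⟩ := Infinite.exists_notMem_finset S
    refine ⟨i, fun F hF hne h6 => hi ?_⟩
    rw [← h6]
    exact (e1 _).1 (h4 F hF hne)
  · obtain ⟨i, hi⟩ := hS
    refine ⟨i, fun F hF hne h6 => ?_⟩
    have h7 := h4 F hF hne
    have h8 : ind {n | c n ∈ S} (∑ x ∈ F, x) = 1 := (e1 _).2 (by rw [h6]; exact hi)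
    rw [h7] at h8
    exact absurd h8 (by decide)

theorem gph_dec {A : Set ℕ} {c : ℕ → ℕ} (hc : Gr A c) : Dec A (gph c) := by
  have h1 : Computable fun x : ℕ × ℕ => x.1.unpair.1 :=
    (Primrec.fst.comp (Primrec.unpair.comp Primrec.fst)).to_comp
  have h2 : Computable fun x : ℕ × ℕ => x.1.unpair.2 :=
    (Primrec.snd.comp (Primrec.unpair.comp Primrec.fst)).to_comp
  have h3 : REIn A fun x : ℕ × ℕ => c x.1.unpair.1 = x.2 :=
    REIn.comp hc (f := fun x : ℕ × ℕ => (x.1.unpair.1, x.2)) (h1.pair Computable.snd)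
  constructor
  · refine (REIn.ex (S := fun (n : ℕ) (i : ℕ) => c n.unpair.1 = i ∧ i = n.unpair.2)
      (REIn.and h3 (REIn.of_re (RE.eq Computable.snd h2)))).of_eq fun n => ?_
    simp [gph]
  · refine (REIn.ex (S := fun (n : ℕ) (i : ℕ) => c n.unpair.1 = i ∧ i ≠ n.unpair.2)
      (REIn.and h3 (REIn.of_re (RE.ne Computable.snd h2)))).of_eq fun n => ?_
    simp [gph]

theorem cmb2_ind {A : Set ℕ} (h : Uns2 A) : Cmb2 (ind A) 1 := by
  refine ⟨fun _ => {1}, ?_, fun l => ?_⟩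
  · intro i j hij
    refine ⟨0, ?_⟩
    simp only [mem_singleton_iff]
    revert i j
    decide
  · have e : {n | ind A n ∈ ({1} : Set (Fin 2))} = A := by
      ext x
      exact ind_one
    rw [e]
    exact h

end Pool.Agent.X224.SG
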