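import Pool.Agent.X224.SG.Coh
import Pool.Agent.X224.SG.Main

/-! Colourings without shattered pairs `{y, x + y}`. -/

set_option autoImplicit false

namespace Pool.Agent.X224.SG

open Filter Set Encodable
open Pool.Agent.Y579.HM Pool.Agent.X224.HR
open Pool.Agent.Helper446.Oracle Pool.Agent.Helper446
open Pool.Agent.Y545.HM (Dec Gr Idl Jmp HTI)

/-- sums of an element of `V` and one of `F` -/
def Mul (V F : Filter ℕ) : Filter ℕ := V.bind fun y => F.map fun z => y + z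

theorem ev_mul {V F : Filter ℕ} {p : ℕ → Prop} :
    (∀ᶠ w in Mul V F, p w) ↔ ∀ᶠ y in V, ∀ᶠ z in F, p (y + z) := by
  unfold Mul
  rw [eventually_bind]
  exact eventually_congr (Eventually.of_forall fun y => by rw [eventually_map])

theorem sg_mul {V F : Filter ℕ} (hF : SG F) (hV : V ≤ F) : SG (Mul V F) := by
  intro D hD
  have h1 : ∀ᶠ y in V, ∀ᶠ v in F, y + v ∈ D := ev_mul.1 hD
  refine ev_mul.2 ?_
  filter_upwards [h1] with y hy
  filter_upwards [hF.shift hy] with z hz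
  refine ev_mul.2 ?_
  filter_upwards [(hF.shift hz).filter_mono hV] with y' hy'
  filter_upwards [hy'] with z' hz'
  rwa [add_assoc]

theorem mul_le {V F : Filter ℕ} (hF : SG F) (hV : V ≤ F) : Mul V F ≤ F := by
  intro D hD
  exact ev_mul.2 ((hF D hD).filter_mono hV)

theorem neBot_mul {V F : Filter ℕ} [V.NeBot] [F.NeBot] : (Mul V F).NeBot := by
  refine ⟨fun h0 => ?_⟩
  have h1 : ∀ᶠ _u in Mul V F, False := by rw [h0]; exact mem_bot
  obtain ⟨y, hy⟩ := (ev_mul.1 h1).exists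
  obtain ⟨z, hz⟩ := hy.exists
  exact hz

theorem dfn_mul {G : Set ℕ} {V F : Filter ℕ} {α β α' β' : ℕ} (hV : Dfn G V α' β')
    (hF : Dfn G F α β) : Dfn G (Mul V F) (α' + α) (max β (β' - α)) := by
  intro n p hp
  have h0 : Lev G n fun w : (ℕ × ℕ) × ℕ => p (w.1.1, w.1.2 + w.2) := hp.subst (by fun_prop)
  have h1 := hF.two h0
  refine ((hV _ _ h1).mono (by omega)).congr fun x => ?_
  exact (ev_mul (p := fun z => p (x, z))).symm

/-- for most `u`: if `y + u` has the colour `i` then `x + y + u` has the colour `j` -/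
def T2 (F : Filter ℕ) (a : ℕ → Fin 2) (x y : ℕ) (i j : Fin 2) : Prop :=
  ∀ᶠ u in F, a (y + u) = i → a (x + (y + u)) = j

/-- the four properties as one sequence of sets -/
def RR (F : Filter ℕ) (a : ℕ → Fin 2) (e : ℕ × ℕ) : Prop :=
  (e.1 % 4 = 0 → T2 F a (e.1 / 4) e.2 0 0) ∧ (e.1 % 4 = 1 → T2 F a (e.1 / 4) e.2 0 1) ∧
    (e.1 % 4 = 2 → T2 F a (e.1 / 4) e.2 1 0) ∧ (e.1 % 4 = 3 → T2 F a (e.1 / 4) e.2 1 1)

theorem rr_iff {F : Filter ℕ} {a : ℕ → Fin 2} (x : ℕ) (i j : Fin 2) :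
    ∃ e, ∀ y, RR F a (e, y) ↔ T2 F a x y i j := by
  have h : ∀ m < 4, (4 * x + m) % 4 = m ∧ (4 * x + m) / 4 = x := fun m hm => by omega
  have ei : i = 0 ∨ i = 1 := by revert i; decide
  have ej : j = 0 ∨ j = 1 := by revert j; decide
  rcases ei with rfl | rfl <;> rcases ej with rfl | rfl
  · refine ⟨4 * x + 0, fun y => ?_⟩
    unfold RR
    simp [(h 0 (by norm_num)).1, (h 0 (by norm_num)).2]
  · refine ⟨4 * x + 1, fun y => ?_⟩
    unfold RR
    simp [(h 1 (by norm_num)).1, (h 1 (by norm_num)).2]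
  · refine ⟨4 * x + 2, fun y => ?_⟩
    unfold RR
    simp [(h 2 (by norm_num)).1, (h 2 (by norm_num)).2]
  · refine ⟨4 * x + 3, fun y => ?_⟩
    unfold RR
    simp [(h 3 (by norm_num)).1, (h 3 (by norm_num)).2]

section
variable {G : Set ℕ} {F : Filter ℕ} {α β : ℕ} {a : ℕ → Fin 2}

theorem lev_T2 (h : Dfn G F α β) (ha : ∀ i, Lev G 0 fun x : ℕ => a x = i) (i j : Fin 2) :
    Lev G (α + β) fun x : ℕ × ℕ => T2 F a x.1 x.2 i j := by
  have h1 : Lev G 0 fun w : (ℕ × ℕ) × ℕ => a (w.1.2 + w.2) = i → a (w.1.1 + (w.1.2 + w.2)) = j :=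
    Lev.imp ((ha i).subst (g := fun w : (ℕ × ℕ) × ℕ => w.1.2 + w.2) (by fun_prop))
      ((ha j).subst (g := fun w : (ℕ × ℕ) × ℕ => w.1.1 + (w.1.2 + w.2)) (by fun_prop))
  exact (h.two h1).mono (by omega)

theorem lev_RR (h : Dfn G F α β) (ha : ∀ i, Lev G 0 fun x : ℕ => a x = i) :
    Lev G (α + β) (RR F a) := by
  have key : ∀ (m : ℕ) (i j : Fin 2), Lev G (α + β) fun e : ℕ × ℕ =>
      e.1 % 4 = m → T2 F a (e.1 / 4) e.2 i j := fun m i j =>
    Lev.imp (lev_eq (by fun_prop) (by fun_prop))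
      ((lev_T2 h ha i j).subst (g := fun e : ℕ × ℕ => (e.1 / 4, e.2)) (by fun_prop))
  exact Lev.and (key 0 0 0) (Lev.and (key 1 0 1) (Lev.and (key 2 1 0) (key 3 1 1)))

theorem step2 (hF : SG F) [F.NeBot] (hD : Dfn G F α β) (ha : ∀ i, Lev G 0 fun x : ℕ => a x = i)
    (hP : ∀ᶠ x in F, ∀ᶠ y in F, ∃ i j, T2 F a x y i j) :
    ∃ F' : Filter ℕ, F'.NeBot ∧ SG F' ∧ F' ≤ F ∧ (∃ i, ∀ᶠ x in F', a x = i) ∧
      Dfn G F' (4 * α + 4) (3 * α + β + 3) := by
  obtain ⟨V, hV⟩ : ∃ V, V = Coh F (RR F a) := ⟨_, rfl⟩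
  haveI : V.NeBot := hV ▸ coh_neBot
  have hVF : V ≤ F := hV ▸ coh_le
  have hVD : Dfn G V (α + 2) (max (α + β + 1) β) := hV ▸ dfn_coh hD (lev_RR hD ha)
  have hdec : ∀ x i j, (∀ᶠ y in V, T2 F a x y i j) ∨ ∀ᶠ y in V, ¬ T2 F a x y i j := by
    intro x i j
    obtain ⟨e, he⟩ := rr_iff (F := F) (a := a) x i j
    have h1 := coh_dec (F := F) (R := RR F a) e
    rw [← hV] at h1
    simpa only [he] using h1
  haveI : (Mul V F).NeBot := neBot_mul
  have hM : SG (Mul V F) := sg_mul hF hVF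
  have hMF : Mul V F ≤ F := mul_le hF hVF
  have hMD : Dfn G (Mul V F) (2 * α + 2) (α + β + 1) :=
    (dfn_mul hVD hD).mono (by omega) (by omega)
  have hMP : ∀ᶠ x in Mul V F, ∃ i j, T (Mul V F) a x i j := by
    refine Eventually.filter_mono hMF ?_
    filter_upwards [hP] with x hx
    have h1 : ∃ i j, ∀ᶠ y in V, T2 F a x y i j := by
      by_contra hcon
      push Not at hcon
      have h2 : ∀ᶠ y in V, ∀ i j, ¬ T2 F a x y i j := by
        refine eventually_all.2 fun i => eventually_all.2 fun j => ?_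
        rcases hdec x i j with h3 | h3
        · exact absurd h3 (not_eventually.2 (hcon i j))
        · exact h3
      obtain ⟨y, ⟨i, j, hy1⟩, hy2⟩ := ((hx.filter_mono hVF).and h2).exists
      exact hy2 i j hy1
    obtain ⟨i, j, h2⟩ := h1
    exact ⟨i, j, ev_mul.2 h2⟩
  obtain ⟨F', k1, k2, k3, k4, k5⟩ := step hM hMP
  refine ⟨F', k1, k2, k3.trans hMF, k4, ?_⟩
  rcases k5 with ⟨i', j', rfl⟩ | ⟨i', rfl⟩
  · exact (hMD.inf ha i' j').mono (by omega) (by omega)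
  · exact (hMD.bd ha i').mono (by omega) (by omega)

end

theorem iter2 (G : Set ℕ) (a : ℕ → ℕ → Fin 2) (ha : ∀ l i, Lev G 0 fun x : ℕ => a l x = i)
    (hP : ∀ l, ∀ᶠ x in Far, ∀ᶠ y in Far, ∃ i j, T2 Far (a l) x y i j) : ∀ r : ℕ,
    ∃ F : Filter ℕ, F.NeBot ∧ SG F ∧ F ≤ Far ∧ (∀ l < r, ∃ i, ∀ᶠ x in F, a l x = i) ∧
      Dfn G F (4 ^ (r + 1) - 2) (4 ^ (r + 1) - 2) := by
  intro r
  induction r with
  | zero =>
    exact ⟨Far, inferInstance, sg_far, le_rfl, fun l hl => absurd hl (Nat.not_lt_zero _),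
      (dfn_far G).mono (by norm_num) (by norm_num)⟩
  | succ r ih =>
    obtain ⟨F, h1, h2, h3, h4, h5⟩ := ih
    obtain ⟨F', k1, k2, k3, ⟨i, k4⟩, k5⟩ := step2 (a := a r) h2 h5 (ha r)
      ((hP r).filter_mono h3 |>.mono fun x hx => (hx.filter_mono h3).mono
        fun y ⟨i, j, hij⟩ => ⟨i, j, hij.filter_mono h3⟩)
    refine ⟨F', k1, k2, k3.trans h3, ?_, ?_⟩
    · intro l hl
      rcases Nat.lt_succ_iff_lt_or_eq.1 hl with h6 | rfl
      · obtain ⟨i', h7⟩ := h4 l h6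
        exact ⟨i', h7.filter_mono k3⟩
      · exact ⟨i, k4⟩
    · have e : 4 ^ (r + 1 + 1) = 4 * 4 ^ (r + 1) := by ring
      have e2 : 4 ≤ 4 ^ (r + 1) := by
        calc 4 = 4 ^ 1 := by norm_num
          _ ≤ 4 ^ (r + 1) := Nat.pow_le_pow_right (by norm_num) (by omega)
      exact k5.mono (by omega) (by omega)

end Pool.Agent.X224.SG
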