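import Pool.Agent.X224.SG.Vc
import Pool.Agent.Y579.ST.Stm

/-! Colourings of Vapnik-Chervonenkis dimension one: the translation of the definitions. -/

set_option autoImplicit false

namespace Pool.Agent.X224.SG

open Filter Set Encodable
open Pool.Agent.Y579.HM Pool.Agent.X224.HR
open Pool.Agent.Helper446.Oracle Pool.Agent.Helper446
open Pool.Agent.Y545.HM

/-- asymptotic dimension at most one -/
def Dim1 (A : Set ℕ) : Prop :=
  ∀ x y : ℕ, 0 < x → 0 < y → ∃ P Q : Bool, ∃ m : ℕ,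
    ∀ u, 0 < u → m.factorial ∣ u → ¬ ((x + u ∈ A ↔ P = true) ∧ (y + u ∈ A ↔ Q = true))

/-- no shattered translates of `{0, x}` -/
def Uns2 (A : Set ℕ) : Prop :=
  ∃ N : ℕ, ∀ x, 0 < x → N.factorial ∣ x → ∃ M : ℕ, ∀ y, 0 < y → M.factorial ∣ y →
    ∃ P Q : Bool, ∃ m : ℕ, ∀ u, 0 < u → m.factorial ∣ u →
      ¬ ((y + u ∈ A ↔ P = true) ∧ (x + y + u ∈ A ↔ Q = true))

/-- combinations -/
def Cmb2 {k : ℕ} (c : ℕ → Fin k) (r : ℕ) : Prop :=
  ∃ S : Fin r → Set (Fin k), (∀ i j, i ≠ j → ∃ l, ¬ (i ∈ S l ↔ j ∈ S l)) ∧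
    ∀ l, Uns2 {n | c n ∈ S l}

theorem uns2_of_dim {A : Set ℕ} (h : Dim1 A) : Uns2 A :=
  ⟨0, fun x h1 _ => ⟨0, fun y h2 _ => h y (x + y) h2 (by omega)⟩⟩

theorem uns2_T {A : Set ℕ} {a : ℕ → Fin 2} (ha : ∀ x, a x = 1 ↔ x ∈ A) (h : Uns2 A) :
    ∀ᶠ x in Far, ∀ᶠ y in Far, ∃ i j, T2 Far a x y i j := by
  have h0 : ∀ i : Fin 2, ∀ x, a x = i ↔ (x ∈ A ↔ i = 1) := by
    intro i x
    rw [← ha x]
    generalize a x = e
    revert i e
    decide
  obtain ⟨N, hN⟩ := h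
  refine ev_far.2 ⟨N, fun x h1 h2 => ?_⟩
  obtain ⟨M, hM⟩ := hN x h1 h2
  refine ev_far.2 ⟨M, fun y h3 h4 => ?_⟩
  obtain ⟨P, Q, m, hm⟩ := hM y h3 h4
  refine ⟨if P = true then 1 else 0, if Q = true then 0 else 1, ev_far.2 ⟨m, fun u h5 h6 h7 => ?_⟩⟩
  have h8 := hm u h5 h6
  rw [add_assoc] at h8
  rw [h0] at h7 ⊢
  revert h7 h8
  cases P <;> cases Q <;> simp <;> tauto

theorem dim_of_vc {c : ℕ → Fin 2} (h : Pool.Agent.Y579.ST.VCOne c) : Dim1 {n | c n = 1} := by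
  intro x y hx hy
  unfold Pool.Agent.Y579.ST.VCOne at h
  push Not at h
  obtain ⟨S, hS⟩ := h ![x, y]
  refine ⟨decide (S 0 = 1), decide (S 1 = 1), 3 ^ (x + y), fun u h1 h2 h3 => ?_⟩
  have h4 : 3 ^ (x + y) ∣ u := (Nat.dvd_factorial (by positivity) le_rfl).trans h2
  have h5 : x + y < 3 ^ (x + y) := Nat.lt_pow_self (by norm_num)
  have e : ∀ f g : Fin 2, (f = 1 ↔ g = 1) → f = g := by decide
  obtain ⟨j, hj⟩ := hS u (by
    intro j
    fin_cases j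
    · exact ⟨hx, h1, x + y, by show x < _; omega, h4⟩
    · exact ⟨hy, h1, x + y, by show y < _; omega, h4⟩)
  apply hj
  fin_cases j
  · refine e _ _ ?_
    have := h3.1
    rw [decide_eq_true_iff] at this
    exact this
  · refine e _ _ ?_
    have := h3.2
    rw [decide_eq_true_iff] at this
    exact this

variable {k : ℕ} {c : ℕ → Fin k}

theorem upper2 {r : ℕ} (h : Cmb2 c r) :
    ∃ Z X : Set ℕ, LevN (graph c) (4 ^ (r + 2)) (· ∈ Z) ∧
      Pool.Agent.Y545.HM.St.Solution c X ∧ Dec Z X := by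
  obtain ⟨S, hS1, hS2⟩ := h
  obtain ⟨S', hS'⟩ : ∃ S' : ℕ → Set (Fin k), ∀ l, S' l = if hl : l < r then S ⟨l, hl⟩ else ∅ :=
    ⟨_, fun l => rfl⟩
  obtain ⟨F, h1, h2, h3, h4, h5⟩ := iter2 (graph c) (fun l => ind {n | c n ∈ S' l})
    (fun l i => lev_ind c (S' l) i) (fun l => by
      rw [hS' l]
      split_ifs with hl
      · exact uns2_T (fun x => ind_one) (hS2 ⟨l, hl⟩)
      · refine Eventually.of_forall fun x => Eventually.of_forall fun y =>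
          ⟨0, 0, Eventually.of_forall fun u _ => ?_⟩
        unfold ind
        simp) r
  have h6 : ∀ᶠ x in F, ∀ l : Fin r, ∀ y, (∀ᶠ z in F, ind {n | c n ∈ S' l} z = y) →
      ind {n | c n ∈ S' l} x = y := by
    refine eventually_all.2 fun l => eventually_all.2 fun y => ?_
    by_cases h7 : ∀ᶠ z in F, ind {n | c n ∈ S' l} z = y
    · filter_upwards [h7] with x hx _
      exact hx
    · exact Eventually.of_forall fun x h8 => absurd h8 h7
  obtain ⟨x0, hx0⟩ := h6.exists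
  have h7 : ∀ᶠ x in F, c x = c x0 := by
    filter_upwards [h6] with x hx
    by_contra hne
    obtain ⟨l, hl⟩ := hS1 _ _ hne
    obtain ⟨i, hi⟩ := h4 l l.2
    have k1 := hx l i hi
    have k2 := hx0 l i hi
    have e0 : S' (l : ℕ) = S l := by rw [hS']; simp
    rw [e0] at k1 k2
    have e1 : ∀ x, c x ∈ S l ↔ ind {n | c n ∈ S l} x = 1 :=
      fun x => (ind_one (A := {n | c n ∈ S l})).symm
    apply hl
    rw [e1, e1, k1, k2]
  obtain ⟨Z, X, k1, k2, k3⟩ := final h2 h3 h7 h5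
  refine ⟨Z, X, k1.mono ?_, k2, k3⟩
  have e : 4 ^ (r + 2) = 4 * 4 ^ (r + 1) := by ring
  omega

theorem cmb2_of_dim (h : ∀ i, Dim1 {n | c n = i}) : Cmb2 c k := by
  refine ⟨fun i => {i}, fun i j hij => ⟨i, ?_⟩, fun l => uns2_of_dim (h l)⟩
  simp [Ne.symm hij]

theorem cl_full (q : ℕ → ℕ → Bool) (x : ℕ) : ∃ e : ℕ, ∃ m : ℕ, ∀ u, 0 < u → m.factorial ∣ u →
    (cl q (x + u) : ℕ) = (e + (cl q u : ℕ)) % 2 := by
  obtain ⟨m, hm1, hm2⟩ := (tc_infinite (q := q)).exists_gt x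
  have hx : x < 2 ^ m := hm2.trans Nat.lt_two_pow_self
  refine ⟨nG q (Dm q m) x, 2 ^ m, fun u h1 h2 => ?_⟩
  obtain ⟨t, rfl⟩ : 2 ^ m ∣ u := (Nat.dvd_factorial (by positivity) le_rfl).trans h2
  have ht : 1 ≤ t := Nat.pos_of_mul_pos_left h1
  have h4 := key_cl hm1 x hx t ht
  show nG q (En q (x + 2 ^ m * t)) (x + 2 ^ m * t) % 2 =
    (nG q (Dm q m) x + nG q (En q (2 ^ m * t)) (2 ^ m * t) % 2) % 2
  rw [h4]
  omega

theorem cl_dim (q : ℕ → ℕ → Bool) (i : Fin 2) : Dim1 {n | cl q n = i} := by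
  intro x y _ _
  obtain ⟨e, m, hm⟩ := cl_full q x
  obtain ⟨e', m', hm'⟩ := cl_full q y
  refine ⟨true, decide ((e + e') % 2 = 1), max m m', fun u h1 h2 h3 => ?_⟩
  have h4 := hm u h1 ((Nat.factorial_dvd_factorial (le_max_left _ _)).trans h2)
  have h5 := hm' u h1 ((Nat.factorial_dvd_factorial (le_max_right _ _)).trans h2)
  obtain ⟨h6, h7⟩ := h3
  have h8 : cl q (x + u) = i := h6.2 rfl
  have h9 : cl q (y + u) = i ↔ (e + e') % 2 = 1 := by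
    rw [decide_eq_true_iff] at h7
    exact h7
  rw [Fin.ext_iff] at h8 h9
  have h10 := (cl q u).2
  have h11 := i.2
  omega

theorem lower2 {A S : Set ℕ} (hS : REIn A (· ∈ S)) : ∃ c : ℕ → Fin 2, Gr A c ∧
    (∀ i, Dim1 {n | c n = i}) ∧ ∀ B Y, Dec B A → Dec B Y → Sol c Y → Dec B S := by
  obtain ⟨q, hq, hq2⟩ := exists_q hS
  refine ⟨cl q, gr_cl hq, cl_dim q, fun B Y hBA hBY hY => ⟨re_lift hS hBA, ?_⟩⟩
  exact (re_not_k (hq.lift hBA) hBY hY).of_eq fun x => not_congr (hq2 x).symm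

end Pool.Agent.X224.SG
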